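import Mathlib

/-!
Project PT (MP_d88658_nt, helper23): the quadratic twists of an elliptic curve with exactly one rational
point of order two. Statements of the independent jobs.
-/

open Polynomial

set_option autoImplicit false

namespace Pool.Agent.K7.H23.PT

/-- Job SV (sieve). Numbers `n ≤ B` without prime factors `≤ z` and such that `t n` is a square modulo
every prime factor of `A`. -/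
def StSV : Prop := ∃ C : ℝ, 0 < C ∧ ∀ (z A B : ℕ) (t : ℤ), 2 ≤ z → Squarefree A → Odd A →
  (∀ p : ℕ, p.Prime → p ∣ A → p ≤ z ∧ ¬ (p : ℤ) ∣ t) → A * z ^ 4 ≤ B →
  (Set.ncard {n : ℕ | 1 ≤ n ∧ n ≤ B ∧ (∀ p : ℕ, p.Prime → p ≤ z → ¬ p ∣ n) ∧
    ∀ p : ℕ, p.Prime → p ∣ A → IsSquare ((t * n : ℤ) : ZMod p)} : ℝ) ≤
    C * B / (2 ^ A.primeFactors.card * Real.log z)

open scoped Classical in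
/-- Job MQ (Mertens' theorem for the primes modulo which `Δ` is, is not, a square). -/
def StMQ : Prop := ∀ Δ : ℤ, ¬ IsSquare Δ → ∃ C : ℝ, ∀ z : ℕ, 2 ≤ z →
  (|(∑ p ∈ (Finset.range (z + 1)).filter (fun p => p.Prime ∧ IsSquare ((Δ : ℤ) : ZMod p)),
      (1 : ℝ) / p) - Real.log (Real.log z) / 2| ≤ C) ∧
  (|(∑ p ∈ (Finset.range (z + 1)).filter (fun p => p.Prime ∧ ¬ IsSquare ((Δ : ℤ) : ZMod p)),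
      (1 : ℝ) / p) - Real.log (Real.log z) / 2| ≤ C)

/-- the scales `X_k = 2 ^ 2 ^ k` -/
def Xk (k : ℕ) : ℕ := 2 ^ 2 ^ k

/-- `z_k = 2 ^ 2 ^ (k - ⌊k / 200⌋)`, about `exp ((log X_k) ^ 0.995)` -/
def zk (k : ℕ) : ℕ := 2 ^ 2 ^ (k - k / 200)

open scoped Classical in
/-- the number of the prime factors `p ≤ y` of `D` modulo which `Δ` is a square -/
noncomputable def ws (Δ : ℤ) (y : ℕ) (D : ℤ) : ℕ :=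
  (D.natAbs.primeFactors.filter fun p => p ≤ y ∧ IsSquare ((Δ : ℤ) : ZMod p)).card

/-- the number of the prime factors `p`, `y < p ≤ x`, of `D` -/
def wm (y x : ℕ) (D : ℤ) : ℕ := (D.natAbs.primeFactors.filter fun p => y < p ∧ p ≤ x).card

/-- the product of the prime factors `p ≤ y` of `D` -/
def sm (y : ℕ) (D : ℤ) : ℕ := ∏ p ∈ D.natAbs.primeFactors.filter fun p => p ≤ y, p

/-- `D` is typical at the scale `k` (`|D| ≤ N`; `n` is a constant) -/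
def TypK (Δ : ℤ) (k n N : ℕ) (D : ℤ) : Prop :=
  100 * ws Δ (zk k) D ≤ 38 * k ∧ 100 * wm (zk k) (Xk (k + 1)) D ≤ k ∧
    sm (zk k) D ^ 8 ≤ Xk k ∧ sm (zk k) D ^ (8 * n) ≤ N

/-- `D` has a prime factor `p > N ^ (1 / n)` modulo which `Δ` is not a square -/
def Big (Δ : ℤ) (n N : ℕ) (D : ℤ) : Prop :=
  ∃ p : ℕ, p.Prime ∧ (p : ℤ) ∣ D ∧ N < p ^ n ∧ ¬ IsSquare ((Δ : ℤ) : ZMod p)

/-- Job TY: almost all `D` are typical. -/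
def StTY : Prop := ∀ Δ : ℤ, ¬ IsSquare Δ → ∀ ε : ℝ, 0 < ε → ∃ n k₀ N₀ : ℕ, 1 ≤ n ∧
  ∀ N : ℕ, N₀ ≤ N → (Set.ncard {D : ℤ | D ≠ 0 ∧ |D| ≤ N ∧
    ¬ ((∀ k, k₀ ≤ k → Xk k ≤ N → TypK Δ k n N D) ∧ Big Δ n N D)} : ℝ) ≤ ε * N

/-- the local conditions for `D = c₁ c₂ m` -/
def Loc (a b : ℤ) (R : ℕ) (c₁ c₂ m r : ℤ) : Prop :=
  Squarefree c₁ ∧ Squarefree c₂ ∧ 0 < m ∧ 0 < c₂ ∧
    (∀ p : ℕ, p.Prime → (p : ℤ) ∣ c₁ → (p : ℤ) ∣ c₂ → p ∣ R) ∧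
    IsCoprime c₁ m ∧ IsCoprime c₂ m ∧ c₂ ∣ r ^ 2 + a * r + b ∧
    (∀ p : ℕ, p.Prime → (p : ℤ) ∣ c₁ → ¬ p ∣ R → IsSquare ((b * c₂ : ℤ) : ZMod p)) ∧
    (∀ p : ℕ, p.Prime → (p : ℤ) ∣ c₂ → ¬ p ∣ R → IsSquare ((c₁ * m * r : ℤ) : ZMod p))

/-- Job BL: the typical `D` with a representation at the scale `k`. -/
def StBL : Prop := ∀ (a b : ℤ) (R : ℕ), ¬ IsSquare (a ^ 2 - 4 * b) → 1 ≤ R →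
  2 * b * (a ^ 2 - 4 * b) ∣ (R : ℤ) → ∀ n : ℕ, 1 ≤ n → ∃ (C : ℝ) (k₁ N₁ : ℕ), 0 < C ∧
    ∀ N k : ℕ, N₁ ≤ N → k₁ ≤ k → Xk k ≤ N →
      (Set.ncard {D : ℤ | D ≠ 0 ∧ |D| ≤ N ∧ TypK (a ^ 2 - 4 * b) k n N D ∧
        Big (a ^ 2 - 4 * b) n N D ∧ ∃ c₁ c₂ m r : ℤ, D = c₁ * c₂ * m ∧ Loc a b R c₁ c₂ m r ∧
          (Xk k : ℤ) ≤ c₂ ∧ c₂ < Xk (k + 1) ∧ m ≤ 4 ^ (k + 1)} : ℝ) ≤
        C * (199 / 200 : ℝ) ^ k * N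

/-- Job AN (from TY and BL). -/
def StAN : Prop := ∀ (a b : ℤ) (R : ℕ), ¬ IsSquare (a ^ 2 - 4 * b) → 1 ≤ R →
  2 * b * (a ^ 2 - 4 * b) ∣ (R : ℤ) → ∀ ε : ℝ, 0 < ε → ∃ X₀ N₀ : ℕ, 1 ≤ X₀ ∧ ∀ N : ℕ, N₀ ≤ N →
    (Set.ncard {D : ℤ | D ≠ 0 ∧ |D| ≤ N ∧ ∃ c₁ c₂ m r : ℤ, D = c₁ * c₂ * m ∧
      Loc a b R c₁ c₂ m r ∧ (X₀ : ℤ) ≤ c₂ ∧ m ≤ (Nat.log 2 c₂.natAbs : ℤ) ^ 2} : ℝ) ≤ ε * N

/-- Job BX: large coprime pairs `(x, m)` with given bounds for the squarefree parts of `x` and of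
`x² + a x m + b m²`. -/
def StBX : Prop := ∃ M : ℕ, ∀ a b : ℤ, ¬ IsSquare (a ^ 2 - 4 * b) → b ≠ 0 →
  ∃ C N₀ : ℕ, ∀ N Y₁ Y₂ : ℕ, N₀ ≤ N → 1 ≤ Y₁ → 1 ≤ Y₂ → Y₁ * Y₂ ≤ N → ∀ s : Finset (ℤ × ℤ),
    (∀ p ∈ s, 0 < p.2 ∧ p.2 ≤ N ∧ IsCoprime p.1 p.2 ∧ (N : ℤ) ^ M < |p.1| ∧
      (∃ c y : ℤ, Squarefree c ∧ |c| ≤ Y₁ ∧ p.1 = c * y ^ 2) ∧
      (∃ c y : ℤ, Squarefree c ∧ |c| ≤ Y₂ ∧ p.1 ^ 2 + a * p.1 * p.2 + b * p.2 ^ 2 = c * y ^ 2)) →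
    s.card ≤ C * (Y₁ * Y₂)

/-- Job TO: the torsion class, `m` fixed. -/
def StTO : Prop := ∃ M : ℕ, ∀ a b m : ℤ, ¬ IsSquare (a ^ 2 - 4 * b) → b ≠ 0 → 0 < m →
  ∃ C N₀ : ℕ, ∀ N : ℕ, N₀ ≤ N → ∀ s : Finset ℤ, (∀ x ∈ s, IsCoprime x m ∧ (N : ℤ) ^ M < |x| ∧
    (∃ c y : ℤ, Squarefree c ∧ |c| ≤ N ∧ x = c * y ^ 2) ∧
    IsSquare (b * (x ^ 2 + a * x * m + b * m ^ 2))) → s.card ^ 4 ≤ C * N ^ 3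

end Pool.Agent.K7.H23.PT
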