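import Pool.Agent.K7.H23.AT.PC
import Pool.Agent.K7.H23.PT.Stm

/-!
Project PT: classes in boxes, and the count of the pairs `(x, m)` (job BX).
-/

open Polynomial

set_option autoImplicit false

namespace Pool.Agent.K7.H23.PT

open Pool.Agent.K7.H23.AT

/-- classes for a product of irreducible polynomials, in a box -/
theorem pb (hCL : StCL) (k : ℕ) (f : Fin k → ℤ[X]) (hm : ∀ i, (f i).Monic)
    (hi : ∀ i, Irreducible (f i)) (hinj : Function.Injective f) :
    ∃ c : ℕ, 1 ≤ c ∧ ∀ Y : Fin k → ℕ, (∀ i, 1 ≤ Y i) →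
    ∃ S : Finset ℚ[X], S.card ≤ c * ∏ i, Y i ∧
      (∀ D ∈ S, ∀ θ : ℂ, aeval θ (∏ i, f i) = 0 →
        IsIntegral ℤ (aeval θ D) ∧ aeval θ D ≠ 0 ∧ ‖aeval θ D‖ ≤ (c * ∏ i, Y i : ℕ)) ∧
      ∀ (x m : ℤ) (g y : Fin k → ℤ), m ≠ 0 → IsCoprime x m → (∀ i, Squarefree (g i)) →
        (∀ i, |g i| ≤ Y i) → (∀ i, y i ≠ 0) →
        (∀ i, ((f i).scaleRoots m).eval x = g i * y i ^ 2) →
        ∃ D ∈ S, ∃ B : ℚ[X], (∏ i, f i).map (Int.castRingHom ℚ) ∣
          B ^ 2 - D * (C (x : ℚ) - C (m : ℚ) * X) := by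
  classical
  choose c S hScard hSval hScl using fun i : Fin k => hCL (f i) (hm i) (hi i)
  choose E hE using crt f hm hi hinj
  refine ⟨∏ i, c i + ∑ i, c i + 1, by omega, fun Y hY => ?_⟩
  refine ⟨(Fintype.piFinset fun i => S i (Y i) (hY i)).image E, ?_, ?_, ?_⟩
  · calc _ ≤ (Fintype.piFinset fun i => S i (Y i) (hY i)).card := Finset.card_image_le
      _ = ∏ i, (S i (Y i) (hY i)).card := Fintype.card_piFinset _
      _ ≤ ∏ i, (c i * Y i) := Finset.prod_le_prod' fun i _ => hScard i _ (hY i)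
      _ = (∏ i, c i) * ∏ i, Y i := Finset.prod_mul_distrib
      _ ≤ _ := Nat.mul_le_mul_right _ (by omega)
  · intro D hD θ hθ
    obtain ⟨D', hD', rfl⟩ := Finset.mem_image.1 hD
    rw [Fintype.mem_piFinset] at hD'
    rw [map_prod, Finset.prod_eq_zero_iff] at hθ
    obtain ⟨i, -, hθi⟩ := hθ
    have h1 : aeval θ (E D') = aeval θ (D' i) := by
      obtain ⟨q, hq⟩ := hE D' i
      have h2 := congrArg (aeval θ) hq
      rw [map_sub, map_mul] at h2
      have h3 : aeval θ ((f i).map (Int.castRingHom ℚ)) = 0 := by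
        rw [aeval_def, eval₂_map, ← hθi, aeval_def]
        congr 1
      rw [h3, zero_mul, sub_eq_zero] at h2
      exact h2
    rw [h1]
    obtain ⟨h4, h5, h6⟩ := hSval i _ (hY i) (D' i) (hD' i) θ hθi
    refine ⟨h4, h5, h6.trans ?_⟩
    have h7 : c i * Y i ≤ (∏ i, c i + ∑ i, c i + 1) * ∏ i, Y i := by
      have h9 : c i ≤ ∑ i, c i := Finset.single_le_sum (f := c) (fun _ _ => Nat.zero_le _)
        (Finset.mem_univ i)
      have h10 : Y i ≤ ∏ i, Y i :=
        Finset.single_le_prod' (f := Y) (fun i _ => hY i) (Finset.mem_univ i)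
      exact Nat.mul_le_mul (by omega) h10
    exact_mod_cast h7
  · intro x m g y hm0 hcop hsq hg hy hval
    have hcl : ∀ i, ∃ D ∈ S i (Y i) (hY i), ∃ B : ℚ[X],
        (f i).map (Int.castRingHom ℚ) ∣ B ^ 2 - D * (C (x : ℚ) - C (m : ℚ) * X) := fun i =>
      hScl i _ (hY i) x m (g i) (y i) hm0 hcop (hsq i) (hg i) (hy i) (hval i)
    choose D' hD' B' hB' using hcl
    refine ⟨E D', ?_, E B', ?_⟩
    · apply Finset.mem_image_of_mem
      rw [Fintype.mem_piFinset]
      exact hD'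
    · rw [Polynomial.map_prod]
      apply Finset.prod_dvd_of_coprime
      · intro i _ j _ hij
        exact coprime_map (hm i) (hm j) (hi i) (hi j) (fun h => hij (hinj h))
      · intro i _
        have h1 := hE D' i
        have h2 := hE B' i
        have h3 : E B' ^ 2 - E D' * (C (x : ℚ) - C (m : ℚ) * X) =
            (E B' - B' i) * (E B' + B' i) - (E D' - D' i) * (C (x : ℚ) - C (m : ℚ) * X) +
              (B' i ^ 2 - D' i * (C (x : ℚ) - C (m : ℚ) * X)) := by ring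
        rw [h3]
        exact dvd_add (dvd_sub (h2.mul_right _) (h1.mul_right _)) (hB' i)

/-- the quadratic polynomial -/
lemma quad_monic (a b : ℤ) : (X ^ 2 + C a * X + C b : ℤ[X]).Monic := by
  monicity!

lemma quad_deg (a b : ℤ) : (X ^ 2 + C a * X + C b : ℤ[X]).natDegree = 2 := by
  compute_degree!

lemma quad_no_root {a b : ℤ} (h : ¬ IsSquare (a ^ 2 - 4 * b)) {x m : ℤ} (hm : m ≠ 0) :
    x ^ 2 + a * x * m + b * m ^ 2 ≠ 0 := by
  intro h0
  apply h
  have h1 : (2 * x + a * m) ^ 2 = (a ^ 2 - 4 * b) * m ^ 2 := by linear_combination 4 * h0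
  have h2 : m ^ 2 ∣ (2 * x + a * m) ^ 2 := ⟨a ^ 2 - 4 * b, by rw [h1]; ring⟩
  rw [Int.pow_dvd_pow_iff two_ne_zero] at h2
  obtain ⟨w, hw⟩ := h2
  refine ⟨w, ?_⟩
  rw [hw] at h1
  apply mul_right_cancel₀ (pow_ne_zero 2 hm)
  linear_combination -h1

lemma quad_irr {a b : ℤ} (h : ¬ IsSquare (a ^ 2 - 4 * b)) :
    Irreducible (X ^ 2 + C a * X + C b : ℤ[X]) := by
  rw [(quad_monic a b).irreducible_iff_roots_eq_zero_of_degree_le_three
    (by rw [quad_deg]) (by rw [quad_deg]; norm_num)]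
  rw [Multiset.eq_zero_iff_forall_notMem]
  intro x hx
  rw [mem_roots (quad_monic a b).ne_zero, IsRoot.def] at hx
  apply quad_no_root h (x := x) (m := 1) one_ne_zero
  simpa using hx

lemma quad_eval (a b x m : ℤ) : ((X ^ 2 + C a * X + C b : ℤ[X]).scaleRoots m).eval x =
    x ^ 2 + a * x * m + b * m ^ 2 := by
  have c0 : (X ^ 2 + C a * X + C b : ℤ[X]).coeff 0 = b := by
    rw [coeff_add, coeff_add, coeff_X_pow, coeff_C_mul, coeff_X, coeff_C]
    norm_num
  have c1 : (X ^ 2 + C a * X + C b : ℤ[X]).coeff 1 = a := by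
    rw [coeff_add, coeff_add, coeff_X_pow, coeff_C_mul, coeff_X, coeff_C]
    norm_num
  have c2 : (X ^ 2 + C a * X + C b : ℤ[X]).coeff 2 = 1 := by
    rw [coeff_add, coeff_add, coeff_X_pow, coeff_C_mul, coeff_X, coeff_C]
    norm_num
  rw [eval_eq_sum_range, natDegree_scaleRoots, quad_deg]
  simp only [coeff_scaleRoots, quad_deg, Finset.sum_range_succ, Finset.sum_range_zero, c0, c1, c2]
  ring

lemma X_eval (x m : ℤ) : ((X : ℤ[X]).scaleRoots m).eval x = x := by
  rw [eval_eq_sum_range, natDegree_scaleRoots, natDegree_X]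
  simp [coeff_scaleRoots, coeff_X]

theorem bx (hCL : StCL) (hSF : StSF) : StBX := by
  classical
  obtain ⟨M0, N1, hSF3⟩ := hSF 3 le_rfl
  refine ⟨M0 + 1, fun a b hΔ hb => ?_⟩
  obtain ⟨F, hF⟩ : ∃ F : Fin 2 → ℤ[X], F = ![X, X ^ 2 + C a * X + C b] := ⟨_, rfl⟩
  have hF0 : F 0 = X := by rw [hF]; rfl
  have hF1 : F 1 = X ^ 2 + C a * X + C b := by rw [hF]; rfl
  have hFm : ∀ i, (F i).Monic := by
    rw [Fin.forall_fin_two, hF0, hF1]
    exact ⟨monic_X, quad_monic a b⟩
  have hFi : ∀ i, Irreducible (F i) := by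
    rw [Fin.forall_fin_two, hF0, hF1]
    exact ⟨irreducible_X, quad_irr hΔ⟩
  have hne : F 0 ≠ F 1 := by
    intro h
    have := congrArg natDegree h
    rw [hF0, hF1, quad_deg, natDegree_X] at this
    omega
  have hinj : Function.Injective F := by
    intro i j hij
    fin_cases i <;> fin_cases j <;> first | rfl | exact absurd hij hne | exact absurd hij.symm hne
  have hprod : ∏ i, F i = X * (X ^ 2 + C a * X + C b) := by
    rw [Fin.prod_univ_two, hF0, hF1]
  obtain ⟨c, hc1, hc⟩ := pb hCL 2 F hFm hFi hinj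
  rw [hprod] at hc
  set G : ℤ[X] := X * (X ^ 2 + C a * X + C b) with hG
  have hGm : G.Monic := monic_X.mul (quad_monic a b)
  have hGd : G.natDegree = 3 := by
    rw [hG, monic_X.natDegree_mul (quad_monic a b), natDegree_X, quad_deg]
  have hGs : (G.map (Int.castRingHom ℚ)).Separable := by
    have h1 : IsCoprime (X : ℚ[X]) ((X ^ 2 + C a * X + C b : ℤ[X]).map (Int.castRingHom ℚ)) := by
      have := coprime_map monic_X (quad_monic a b) irreducible_X (quad_irr hΔ)
        (by rw [hF0, hF1] at hne; exact hne)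
      rwa [Polynomial.map_X] at this
    rw [hG, Polynomial.map_mul, Polynomial.map_X]
    apply separable_X.mul _ h1
    apply Irreducible.separable
    exact ((quad_monic a b).irreducible_iff_irreducible_map_fraction_map (K := ℚ)).1 (quad_irr hΔ)
  obtain ⟨A, hA⟩ : ∃ A : ℕ, ∀ i, |G.coeff i| ≤ A := by
    refine ⟨∑ i ∈ G.support, (G.coeff i).natAbs, fun i => ?_⟩
    by_cases hi : i ∈ G.support
    · have h1 := Finset.single_le_sum
        (f := fun i => (G.coeff i).natAbs) (fun _ _ => Nat.zero_le _) hi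
      rw [Int.abs_eq_natAbs]
      exact_mod_cast h1
    · rw [notMem_support_iff.1 hi, abs_zero]
      positivity
  refine ⟨c * N1, (2 * (c + A)) ^ M0 + 1, fun N Y₁ Y₂ hN hY₁ hY₂ hY s hs => ?_⟩
  obtain ⟨S, hScard, hSb, hScl⟩ := hc ![Y₁, Y₂] (by
    rw [Fin.forall_fin_two]
    exact ⟨hY₁, hY₂⟩)
  have hYp : ∏ i, (![Y₁, Y₂] : Fin 2 → ℕ) i = Y₁ * Y₂ := by
    rw [Fin.prod_univ_two]; rfl
  rw [hYp] at hScard hSb
  set H := (c + A) * N with hH
  have hN1 : 1 ≤ N := by omega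
  have hH1 : 1 ≤ H := Nat.mul_pos (by omega) hN1
  have hpow : (2 * H : ℤ) ^ M0 ≤ (N : ℤ) ^ (M0 + 1) := by
    have h1 : (2 * H) ^ M0 ≤ N ^ (M0 + 1) := by
      calc (2 * H) ^ M0 = (2 * (c + A)) ^ M0 * N ^ M0 := by rw [hH, ← mul_assoc, mul_pow]
        _ ≤ N * N ^ M0 := Nat.mul_le_mul_right _ (by omega)
        _ = N ^ (M0 + 1) := by ring
    exact_mod_cast h1
  have hcov : s ⊆ S.biUnion fun D => s.filter fun p => ∃ B : ℚ[X], G.map (Int.castRingHom ℚ) ∣
      B ^ 2 - D * (C (p.1 : ℚ) - C (p.2 : ℚ) * X) := by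
    intro p hp
    obtain ⟨h1, h2, h3, h4, ⟨g1, y1, h5, h6, h7⟩, g2, y2, h8, h9, h10⟩ := hs p hp
    have hx0 : p.1 ≠ 0 := by
      intro h0
      rw [h0, abs_zero] at h4
      have : (0 : ℤ) ≤ (N : ℤ) ^ (M0 + 1) := by positivity
      omega
    have hy1 : y1 ≠ 0 := by
      rintro rfl
      apply hx0
      rw [h7]; ring
    have hy2 : y2 ≠ 0 := by
      rintro rfl
      apply quad_no_root hΔ h1.ne' (x := p.1)
      rw [h10]; ring
    obtain ⟨D, hD, B, hB⟩ := hScl p.1 p.2 ![g1, g2] ![y1, y2] h1.ne' h3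
      (by rw [Fin.forall_fin_two]; exact ⟨h5, h8⟩)
      (by rw [Fin.forall_fin_two]; exact ⟨h6, h9⟩)
      (by rw [Fin.forall_fin_two]; exact ⟨hy1, hy2⟩)
      (by
        rw [Fin.forall_fin_two, hF0, hF1, X_eval, quad_eval]
        exact ⟨h7, h10⟩)
    rw [Finset.mem_biUnion]
    exact ⟨D, hD, Finset.mem_filter.2 ⟨hp, B, hB⟩⟩
  calc s.card ≤ ∑ D ∈ S, (s.filter fun p => ∃ B : ℚ[X], G.map (Int.castRingHom ℚ) ∣
        B ^ 2 - D * (C (p.1 : ℚ) - C (p.2 : ℚ) * X)).card :=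
        (Finset.card_le_card hcov).trans Finset.card_biUnion_le
    _ ≤ ∑ D ∈ S, N1 := by
        apply Finset.sum_le_sum
        intro D hD
        apply hSF3 H G D _ hH1 hGm hGd hGs
        · intro i
          refine (hA i).trans ?_
          have : A ≤ H := by
            rw [hH]
            nlinarith
          exact_mod_cast this
        · intro θ hθ
          obtain ⟨h1, h2, h3⟩ := hSb D hD θ hθ
          refine ⟨h1, h2, h3.trans ?_⟩
          have : c * (Y₁ * Y₂) ≤ H := by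
            rw [hH]
            exact Nat.mul_le_mul (by omega) hY
          exact_mod_cast this
        · intro p hp
          rw [Finset.mem_filter] at hp
          obtain ⟨hps, B, hB⟩ := hp
          obtain ⟨h1, h2, h3, h4, -, -⟩ := hs p hps
          refine ⟨h1, h2.trans ?_, h3, lt_of_le_of_lt hpow h4, 1, one_ne_zero, B, ?_⟩
          · have : N ≤ H := by
              rw [hH]
              nlinarith
            exact_mod_cast this
          · rw [Int.cast_one, C_1, one_mul]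
            exact hB
    _ = S.card * N1 := by rw [Finset.sum_const, smul_eq_mul]
    _ ≤ (c * (Y₁ * Y₂)) * N1 := Nat.mul_le_mul_right _ hScard
    _ = c * N1 * (Y₁ * Y₂) := by ring

end Pool.Agent.K7.H23.PT
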