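import Pool.Agent.K7.H23.PT.FI4

/-!
Project PT: the final assembly.
-/

open Polynomial

set_option autoImplicit false

namespace Pool.Agent.K7.H23.PT

open Pool.Agent.K7.H23.AT Pool.Agent.K7.H89.BS

lemma cubic_eval (a b x m : ℤ) : ((X * (X ^ 2 + C a * X + C b) : ℤ[X]).scaleRoots m).eval x =
    x * (x ^ 2 + a * x * m + b * m ^ 2) := by
  rw [mul_scaleRoots_of_noZeroDivisors, eval_mul, X_eval, quad_eval]

lemma q_pos {a b x m N : ℤ} (hm : 0 < m) (hmN : m ≤ N) (hab : |a| + |b| + 1 ≤ N)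
    (hx : N ^ 2 < |x|) : 0 < x ^ 2 + a * x * m + b * m ^ 2 := by
  have hN : 1 ≤ N := by
    have := abs_nonneg a
    have := abs_nonneg b
    omega
  have h1 : (|a| + |b|) * m < |x| := by
    have ha := abs_nonneg a
    have hb := abs_nonneg b
    calc (|a| + |b|) * m ≤ N * N := by
          apply mul_le_mul (by omega) hmN hm.le (by omega)
      _ = N ^ 2 := by ring
      _ < |x| := hx
  have h2 : m ≤ |x| := by nlinarith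
  have h3 : |a * x * m| = |a| * m * |x| := by rw [abs_mul, abs_mul, abs_of_pos hm]; ring
  have h4 : |b * m ^ 2| ≤ |b| * m * |x| := by
    rw [abs_mul, abs_of_nonneg (sq_nonneg m)]
    have := mul_le_mul_of_nonneg_left h2 (mul_nonneg (abs_nonneg b) hm.le)
    nlinarith
  have h5 : |x| ^ 2 = x ^ 2 := sq_abs x
  have h6 := neg_abs_le (a * x * m)
  have h7 := neg_abs_le (b * m ^ 2)
  have hx0 : 0 < |x| := by omega
  nlinarith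

theorem fi (hAN : StAN) (hBX : StBX) (hTO : StTO) (hDE : StDE) : StX1 := by
  classical
  obtain ⟨M1, hbox⟩ := box hBX
  obtain ⟨M2, hp5⟩ := pairs5 hTO
  obtain ⟨Mx, hMx⟩ : ∃ Mx, Mx = M1 + M2 + 2 := ⟨_, rfl⟩
  refine ⟨2 * Mx, fun a b hΔ ε hε => ?_⟩
  have hb : b ≠ 0 := by
    rintro rfl
    exact hΔ ⟨a, by ring⟩
  obtain ⟨R, hRdef⟩ : ∃ R : ℕ, R = (2 * b * (a ^ 2 - 4 * b)).natAbs := ⟨_, rfl⟩
  have hΔ0 : a ^ 2 - 4 * b ≠ 0 := fun h => hΔ ⟨0, by rw [h]; ring⟩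
  have hR : 1 ≤ R := by
    rw [hRdef]
    exact Int.natAbs_pos.2 (mul_ne_zero (mul_ne_zero two_ne_zero hb) hΔ0)
  have hRb : 2 * b * (a ^ 2 - 4 * b) ∣ (R : ℤ) := by
    rw [hRdef]
    exact Int.dvd_natCast.2 dvd_rfl
  have hbR : b ∣ (R : ℤ) := (Dvd.intro_left 2 rfl |>.trans (Dvd.intro _ rfl)).trans hRb
  have hRpos : (0 : ℝ) < R := by exact_mod_cast hR
  obtain ⟨S0, hS0, hS0ε⟩ : ∃ S0 : ℕ, 1 ≤ S0 ∧ 2 / (S0 : ℝ) ≤ ε / 8 := by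
    refine ⟨⌈16 / ε⌉₊ + 1, by omega, ?_⟩
    have h1 : 16 / ε ≤ (⌈16 / ε⌉₊ : ℝ) := Nat.le_ceil _
    have h2 : (0 : ℝ) < ((⌈16 / ε⌉₊ + 1 : ℕ) : ℝ) := by positivity
    rw [div_le_iff₀ h2]
    push_cast
    rw [div_le_iff₀ hε] at h1
    nlinarith
  have hSpos : (0 : ℝ) < S0 := by exact_mod_cast hS0
  obtain ⟨X₀, N₁, hX₀, hA1⟩ := part1 hAN hΔ hR hRb S0 hS0 (ε / 8) (by positivity)
  obtain ⟨Cc, N₂, hC⟩ := hbox a b hΔ hb R hR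
  -- the parameters
  obtain ⟨i0, hi0, hi0ε⟩ : ∃ i0 : ℕ, 1 ≤ i0 ∧
      R * S0 * (Cc * (2 * R ^ 2) * (2 / (i0 : ℝ))) ≤ ε / 8 := by
    refine ⟨⌈32 * R * S0 * Cc * R ^ 2 / ε⌉₊ + 1, by omega, ?_⟩
    have h1 : (32 * R * S0 * Cc * R ^ 2 / ε : ℝ) ≤ (⌈32 * R * S0 * Cc * R ^ 2 / ε⌉₊ : ℝ) :=
      Nat.le_ceil _
    have h2 : (0 : ℝ) < ((⌈32 * R * S0 * Cc * R ^ 2 / ε⌉₊ + 1 : ℕ) : ℝ) := by positivity
    rw [div_le_iff₀ hε] at h1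
    have h3 : (R * S0 * (Cc * (2 * R ^ 2) * (2 / ((⌈32 * R * S0 * Cc * R ^ 2 / ε⌉₊ + 1 : ℕ) : ℝ))) : ℝ)
        = (4 * R * S0 * Cc * R ^ 2) / ((⌈32 * R * S0 * Cc * R ^ 2 / ε⌉₊ + 1 : ℕ) : ℝ) := by ring
    rw [h3, div_le_iff₀ h2]
    push_cast
    nlinarith
  obtain ⟨X1, hX1⟩ : ∃ X1, X1 = X₀ + 2 ^ i0 := ⟨_, rfl⟩
  have hX0X1 : X₀ ≤ X1 := by rw [hX1]; exact Nat.le_add_right _ _
  have hX11 : 1 ≤ X1 := hX₀.trans hX0X1
  obtain ⟨Mm, hMm, hMmε⟩ : ∃ Mm : ℕ, X1 ≤ Mm ∧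
      R * S0 * (Cc * R ^ 2 * X1 / (Mm : ℝ)) ≤ ε / 8 := by
    refine ⟨⌈8 * R * S0 * Cc * R ^ 2 * X1 / ε⌉₊ + X1, by omega, ?_⟩
    have h1 : (8 * R * S0 * Cc * R ^ 2 * X1 / ε : ℝ) ≤ (⌈8 * R * S0 * Cc * R ^ 2 * X1 / ε⌉₊ : ℝ) :=
      Nat.le_ceil _
    have hX1r : (1 : ℝ) ≤ X1 := by exact_mod_cast hX11
    have h2 : (0 : ℝ) < ((⌈8 * R * S0 * Cc * R ^ 2 * X1 / ε⌉₊ + X1 : ℕ) : ℝ) := by positivity
    rw [div_le_iff₀ hε] at h1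
    have h3 : (R * S0 * (Cc * R ^ 2 * X1 / ((⌈8 * R * S0 * Cc * R ^ 2 * X1 / ε⌉₊ + X1 : ℕ) : ℝ)) : ℝ)
        = (R * S0 * Cc * R ^ 2 * X1) / ((⌈8 * R * S0 * Cc * R ^ 2 * X1 / ε⌉₊ + X1 : ℕ) : ℝ) := by ring
    rw [h3, div_le_iff₀ h2]
    push_cast
    nlinarith
  obtain ⟨N₃, hA4⟩ := part4 hDE (a := a) (b := b) (R := R) X1 Mm S0 (ε / 8) (by positivity)
  obtain ⟨N₄, hA5⟩ := hp5 a b hΔ hb R Mm hR (ε / (8 * R * S0)) (by positivity)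
  obtain ⟨N₅, hN₅⟩ : ∃ N₅ : ℕ, ∀ N : ℕ, N₅ ≤ N → (2 * (Nat.sqrt N : ℝ) + 1) ≤ ε / 8 * N := by
    refine ⟨(⌈24 / ε⌉₊ + 1) ^ 2, fun N hN => ?_⟩
    have h1 : ⌈24 / ε⌉₊ + 1 ≤ Nat.sqrt N := Nat.le_sqrt'.2 hN
    have h2 : 24 / ε ≤ (Nat.sqrt N : ℝ) := (Nat.le_ceil _).trans (by exact_mod_cast (by omega))
    rw [div_le_iff₀ hε] at h2
    have h3 : ((Nat.sqrt N : ℕ) : ℝ) * (Nat.sqrt N : ℕ) ≤ N := by exact_mod_cast Nat.sqrt_le N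
    have h4 : (1 : ℝ) ≤ (Nat.sqrt N : ℝ) := by exact_mod_cast (by omega : 1 ≤ Nat.sqrt N)
    nlinarith
  refine ⟨N₁ + N₂ + N₃ + N₄ + N₅ + (|a| + |b| + 1).toNat + 2, fun N hN => ?_⟩
  have hNpos : (0 : ℝ) < N := by exact_mod_cast (by omega : 0 < N)
  have hab : |a| + |b| + 1 ≤ (N : ℤ) := by omega
  set W : (ℤ → ℤ → ℤ → ℤ → Prop) → Set ℤ := fun T => {D : ℤ | D ≠ 0 ∧ |D| ≤ N ∧
    ∃ x m c₁ c₂ r κ v : ℤ, Par a b R N Mx x m c₁ c₂ r ∧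
      T x m c₁ c₂ ∧ 1 ≤ κ ∧ κ ≤ R ∧ 1 ≤ v ∧ v ≤ S0 ∧ D * κ ^ 2 = c₁ * c₂ * m * v ^ 2} with hW
  have hWf : ∀ T, (W T).Finite := fun T => (Set.finite_Icc (-(N : ℤ)) N).subset
    fun D hD => abs_le.1 hD.2.1
  set T1 : ℤ → ℤ → ℤ → ℤ → Prop := fun _ m _ c₂ => (X₀ : ℤ) ≤ c₂ ∧
    m ≤ (Nat.log 2 c₂.natAbs : ℤ) ^ 2 with hT1
  set T2 : ℤ → ℤ → ℤ → ℤ → Prop := fun _ m _ c₂ => (2 : ℤ) ^ i0 ≤ c₂ ∧
    (Nat.log 2 c₂.natAbs : ℤ) ^ 2 < m with hT2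
  set T3 : ℤ → ℤ → ℤ → ℤ → Prop := fun _ m _ c₂ => c₂ ≤ X1 ∧ (Mm : ℤ) ≤ m with hT3
  set T4 : ℤ → ℤ → ℤ → ℤ → Prop := fun _ m _ c₂ => c₂ ≤ X1 ∧ m ≤ Mm ∧ ¬ IsSquare (b * c₂) with hT4
  set T5 : ℤ → ℤ → ℤ → ℤ → Prop := fun _ m _ c₂ => m ≤ Mm ∧ IsSquare (b * c₂) with hT5
  set Sm : Set ℤ := {D : ℤ | D ^ 2 < N} with hSm
  set Sq : Set ℤ := {D : ℤ | D ≠ 0 ∧ |D| ≤ N ∧ ∃ s : ℕ, S0 < s ∧ (s : ℤ) ^ 2 ∣ D} with hSq
  have hcover : {D : ℤ | D ∈ ExcG (X * (X ^ 2 + C a * X + C b)) (2 * Mx) ∧ |D| ≤ N} ⊆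
      Sm ∪ (Sq ∪ (W T1 ∪ (W T2 ∪ (W T3 ∪ (W T4 ∪ W T5))))) := by
    rintro D ⟨⟨hD0, g, m, x, y, hDg, hm, hxm, hy, hx⟩, hDN⟩
    by_cases hsmall : D ^ 2 < N
    · exact Or.inl hsmall
    right
    by_cases hsq : ∃ s : ℕ, S0 < s ∧ (s : ℤ) ^ 2 ∣ D
    · exact Or.inl ⟨hD0, hDN, hsq⟩
    right
    push Not at hsmall hsq
    have hgne : g ≠ 0 := by
      rintro rfl
      apply hD0
      rw [hDg, zero_mul]
    have hmN : m ≤ N := by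
      refine le_trans ?_ hDN
      rw [hDg, abs_mul, abs_of_pos hm]
      exact le_mul_of_one_le_left hm.le (Int.one_le_abs hgne)
    have hxN : (N : ℤ) ^ Mx < |x| := by
      calc (N : ℤ) ^ Mx ≤ (D ^ 2) ^ Mx := pow_le_pow_left₀ (by positivity) hsmall _
        _ = |D| ^ (2 * Mx) := by rw [← sq_abs D]; ring
        _ < |x| := hx
    have hx2 : (N : ℤ) ^ 2 < |x| := by
      refine lt_of_le_of_lt ?_ hxN
      apply pow_le_pow_right₀ (by omega)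
      omega
    have hx0 : x ≠ 0 := by
      rintro rfl
      rw [abs_zero] at hx2
      have : (0 : ℤ) ≤ (N : ℤ) ^ 2 := by positivity
      omega
    have hQ := q_pos hm hmN hab hx2
    rw [cubic_eval] at hy
    obtain ⟨c₁, c₂, y₁, y₂, κ, v, r, hL, h1, h2, hκ1, hκb, hv1, hvD, heq⟩ :=
      pdata hR hRb hD0 hDg hm hxm hx0 hQ hy
    have hκR : κ ≤ R := Int.le_of_dvd (by omega) (hκb.trans hbR)
    have hvS : v ≤ S0 := by
      by_contra hcon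
      push Not at hcon
      apply hsq v.toNat (by omega)
      rwa [Int.toNat_of_nonneg (by omega)]
    have hsz : |c₁| * c₂ * m ≤ (R : ℤ) ^ 2 * N := by
      have h3 : |c₁| * c₂ * m * v ^ 2 = |D| * κ ^ 2 := by
        have := congrArg abs heq
        rw [abs_mul, abs_mul, abs_mul, abs_mul, abs_of_pos hL.2.2.2.1, abs_of_pos hm,
          abs_of_nonneg (sq_nonneg κ), abs_of_nonneg (sq_nonneg v)] at this
        exact this.symm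
      have h4 : 0 ≤ |c₁| * c₂ * m :=
        mul_nonneg (mul_nonneg (abs_nonneg _) hL.2.2.2.1.le) hm.le
      calc |c₁| * c₂ * m ≤ |c₁| * c₂ * m * v ^ 2 :=
            le_mul_of_one_le_right h4 (one_le_pow₀ hv1)
        _ = |D| * κ ^ 2 := h3
        _ ≤ N * (R : ℤ) ^ 2 :=
            mul_le_mul hDN (pow_le_pow_left₀ (by omega) hκR 2) (sq_nonneg _) (by omega)
        _ = _ := by ring
    have hPar : Par a b R N Mx x m c₁ c₂ r := ⟨hL, hxm, hmN, hxN, ⟨y₁, h1⟩, ⟨y₂, h2⟩, hsz⟩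
    have hmk : ∀ T : ℤ → ℤ → ℤ → ℤ → Prop, T x m c₁ c₂ → D ∈ W T := fun T hT =>
      ⟨hD0, hDN, x, m, c₁, c₂, r, κ, v, hPar, hT, hκ1, hκR, hv1, hvS, heq⟩
    by_cases hc : (X1 : ℤ) ≤ c₂
    · by_cases hml : m ≤ (Nat.log 2 c₂.natAbs : ℤ) ^ 2
      · exact Or.inl (hmk T1 ⟨by have : (X₀ : ℤ) ≤ X1 := by exact_mod_cast hX0X1
                                 omega, hml⟩)
      · right; left
        refine hmk T2 ⟨?_, not_le.1 hml⟩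
        have : ((2 : ℤ) ^ i0) ≤ X1 := by
          rw [hX1]; push_cast; omega
        omega
    · by_cases hml : (Mm : ℤ) ≤ m
      · right; right; left
        exact hmk T3 ⟨by omega, hml⟩
      · by_cases hsq2 : IsSquare (b * c₂)
        · right; right; right; right
          exact hmk T5 ⟨by omega, hsq2⟩
        · right; right; right; left
          exact hmk T4 ⟨by omega, by omega, hsq2⟩
  have hbx := hC N Mx (by omega) (by omega)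
  have hW1 : ((W T1).ncard : ℝ) ≤ ε / 8 * N := hA1 N Mx (by omega)
  have hW4 : ((W T4).ncard : ℝ) ≤ ε / 8 * N := hA4 N Mx (by omega)
  have hvia : ∀ (T : ℤ → ℤ → ℤ → ℤ → Prop) (B : ℝ), 0 ≤ B →
      (∀ s : Finset (ℤ × ℤ), (∀ p ∈ s, ∃ c₁ c₂ r : ℤ, Par a b R N Mx p.1 p.2 c₁ c₂ r ∧
        T p.1 p.2 c₁ c₂) → (s.card : ℝ) ≤ B) → ((W T).ncard : ℝ) ≤ R * S0 * B := by
    intro T B hB h
    have h1 := via_pairs hΔ (R := R) (S0 := S0) (N := N) (Mx := Mx) (B := ⌊B⌋₊) T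
      (fun s hs => Nat.le_floor (h s hs))
    calc ((W T).ncard : ℝ) ≤ ((R * S0 * ⌊B⌋₊ : ℕ) : ℝ) := by exact_mod_cast h1
      _ = R * S0 * (⌊B⌋₊ : ℝ) := by push_cast; ring
      _ ≤ R * S0 * B := mul_le_mul_of_nonneg_left (Nat.floor_le hB) (by positivity)
  have hW2 : ((W T2).ncard : ℝ) ≤ ε / 8 * N := by
    have h1 := hvia T2 (Cc * (2 * R ^ 2 * N) * (2 / i0)) (by positivity) (fun s hs =>
      pairs2 hi0 hbx s hs)
    refine h1.trans ?_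
    calc (R * S0 * (Cc * (2 * R ^ 2 * N) * (2 / i0)) : ℝ)
        = (R * S0 * (Cc * (2 * R ^ 2) * (2 / (i0 : ℝ)))) * N := by ring
      _ ≤ ε / 8 * N := mul_le_mul_of_nonneg_right hi0ε hNpos.le
  have hW3 : ((W T3).ncard : ℝ) ≤ ε / 8 * N := by
    have h1 := hvia T3 (Cc * (R ^ 2 * N) * X1 / Mm) (by positivity) (fun s hs =>
      pairs3 hMm hX11 hbx s hs)
    refine h1.trans ?_
    calc (R * S0 * (Cc * (R ^ 2 * N) * X1 / Mm) : ℝ)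
        = (R * S0 * (Cc * R ^ 2 * X1 / (Mm : ℝ))) * N := by ring
      _ ≤ ε / 8 * N := mul_le_mul_of_nonneg_right hMmε hNpos.le
  have hW5 : ((W T5).ncard : ℝ) ≤ ε / 8 * N := by
    have h1 := hvia T5 (ε / (8 * R * S0) * N) (by positivity) (fun s hs =>
      hA5 N Mx (by omega) (by omega) s hs)
    refine h1.trans (le_of_eq ?_)
    field_simp
  have hSmc : (Sm.ncard : ℝ) ≤ ε / 8 * N := by
    have h1 := card_small N
    have h2 : (Sm.ncard : ℝ) ≤ 2 * (Nat.sqrt N : ℝ) + 1 := by exact_mod_cast h1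
    exact h2.trans (hN₅ N (by omega))
  have hSqc : (Sq.ncard : ℝ) ≤ ε / 8 * N := by
    refine (card_large_sq S0 hS0 N).trans ?_
    calc (2 * N / S0 : ℝ) = (2 / (S0 : ℝ)) * N := by ring
      _ ≤ ε / 8 * N := mul_le_mul_of_nonneg_right hS0ε hNpos.le
  have hSmf : Sm.Finite := by
    apply (Set.finite_Icc (-(N : ℤ)) N).subset
    intro D hD
    have hD' : D ^ 2 < N := hD
    rw [Set.mem_Icc, ← abs_le]
    have h1 : |D| ≤ D ^ 2 := by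
      rw [← sq_abs]
      exact Int.le_self_sq _
    omega
  have hSqf : Sq.Finite := (Set.finite_Icc (-(N : ℤ)) N).subset fun D hD => abs_le.1 hD.2.1
  have hUf := hSmf.union (hSqf.union ((hWf T1).union ((hWf T2).union ((hWf T3).union
    ((hWf T4).union (hWf T5))))))
  have hfin : Set.ncard {D : ℤ | D ∈ ExcG (X * (X ^ 2 + C a * X + C b)) (2 * Mx) ∧ |D| ≤ N} ≤
      Sm.ncard + (Sq.ncard + ((W T1).ncard + ((W T2).ncard + ((W T3).ncard +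
        ((W T4).ncard + (W T5).ncard))))) := by
    refine (Set.ncard_le_ncard hcover hUf).trans ?_
    refine (Set.ncard_union_le _ _).trans (Nat.add_le_add_left ?_ _)
    refine (Set.ncard_union_le _ _).trans (Nat.add_le_add_left ?_ _)
    refine (Set.ncard_union_le _ _).trans (Nat.add_le_add_left ?_ _)
    refine (Set.ncard_union_le _ _).trans (Nat.add_le_add_left ?_ _)
    refine (Set.ncard_union_le _ _).trans (Nat.add_le_add_left ?_ _)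
    exact Set.ncard_union_le _ _
  have hfin' : (Set.ncard {D : ℤ | D ∈ ExcG (X * (X ^ 2 + C a * X + C b)) (2 * Mx) ∧
      |D| ≤ N} : ℝ) ≤
      Sm.ncard + (Sq.ncard + ((W T1).ncard + ((W T2).ncard + ((W T3).ncard +
        ((W T4).ncard + (W T5).ncard))))) := by exact_mod_cast hfin
  have : 0 ≤ ε / 8 * (N : ℝ) := by positivity
  linarith

end Pool.Agent.K7.H23.PT
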