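import Pool.Agent.K7.H23.PT.Stm
import Pool.Agent.K7.H23.AT.Fin

/-!
Project PT (MP_d88658_nt, helper23), part 2: the theorem for `X (X² + a X + b)` and the general form.
-/

open Polynomial

set_option autoImplicit false

namespace Pool.Agent.K7.H23.PT

open Pool.Agent.K7.H23.AT

/-- Job FI (helper23): `StAN → StBX → StTO → StDE → StX1`. -/
def StX1 : Prop := ∃ M : ℕ, ∀ a b : ℤ, ¬ IsSquare (a ^ 2 - 4 * b) →
  Dens0 (ExcG (X * (X ^ 2 + C a * X + C b)) M)

/-- Job RD: `StX1 → StRD` (all cubic polynomials with exactly one rational root; `Exc` is in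
`Pool/Agent/K7/H23/AT/Stm3.lean`; the reduction from `f` to a monic polynomial is as in
`Pool/Agent/K7/H23/AT/Fin.lean`, `families`). -/
def StRD : Prop := ∃ M : ℕ, ∀ f : ℤ[X], f.natDegree = 3 →
  (f.map (Int.castRingHom ℚ)).Separable → (f.map (Int.castRingHom ℚ)).roots.card = 1 →
  Dens0 (Exc f M)

end Pool.Agent.K7.H23.PT
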