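import Pool.Agent.K7.H89.BS.B
import Pool.Agent.K7.H23.PT.BX
import Pool.Agent.K7.H23.PT.Stm2

/-!
Project PT: the final assembly, part 1 (the data of an exceptional twist).
-/

open Polynomial

set_option autoImplicit false

namespace Pool.Agent.K7.H23.PT

open Pool.Agent.K7.H23.AT Pool.Agent.K7.H89.BS

/-- the data of a point -/
theorem pdata {a b : ℤ} {R : ℕ} (hR : 1 ≤ R) (hRb : 2 * b * (a ^ 2 - 4 * b) ∣ (R : ℤ))
    {D g m x y : ℤ} (hD : D ≠ 0) (hDg : D = g * m) (hm : 0 < m) (hxm : IsCoprime x m)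
    (hx : x ≠ 0) (hQ : 0 < x ^ 2 + a * x * m + b * m ^ 2)
    (hy : y ^ 2 = g * (x * (x ^ 2 + a * x * m + b * m ^ 2))) :
    ∃ c₁ c₂ y₁ y₂ κ v r : ℤ, Loc a b R c₁ c₂ m r ∧ x = c₁ * y₁ ^ 2 ∧
      x ^ 2 + a * x * m + b * m ^ 2 = c₂ * y₂ ^ 2 ∧ 1 ≤ κ ∧ κ ∣ b ∧ 1 ≤ v ∧ v ^ 2 ∣ D ∧
      D * κ ^ 2 = c₁ * c₂ * m * v ^ 2 := by
  obtain ⟨sf, hsf⟩ := exists_sf
  set Q := x ^ 2 + a * x * m + b * m ^ 2 with hQd
  obtain ⟨hs1, y₁, hy1, h1⟩ := hsf x hx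
  obtain ⟨hs2, y₂, hy2, h2⟩ := hsf Q hQ.ne'
  set c₁ := sf x with hc1
  set c₂ := sf Q with hc2
  have hb0 : b ≠ 0 := by
    rintro rfl
    simp at hRb
    omega
  have hbR : b ∣ (R : ℤ) := (Dvd.intro_left 2 rfl |>.trans (Dvd.intro _ rfl)).trans hRb
  have hc2pos : 0 < c₂ := by
    by_contra hcon
    push Not at hcon
    have : c₂ * y₂ ^ 2 ≤ 0 := mul_nonpos_of_nonpos_of_nonneg hcon (sq_nonneg _)
    rw [← h2] at this
    omega
  have hc1m : IsCoprime c₁ m := IsCoprime.of_isCoprime_of_dvd_left hxm ⟨y₁ ^ 2, h1⟩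
  have hQm : IsCoprime Q m := by
    have h3 : IsCoprime (x ^ 2) m := hxm.pow_left
    have h4 : Q = x ^ 2 + m * (a * x + b * m) := by rw [hQd]; ring
    rw [h4]
    exact h3.add_mul_left_left _
  have hc2m : IsCoprime c₂ m := IsCoprime.of_isCoprime_of_dvd_left hQm ⟨y₂ ^ 2, h2⟩
  have hgne : g ≠ 0 := by
    rintro rfl
    apply hD
    rw [hDg, zero_mul]
  -- the gcd
  have hκpos : 0 < Int.gcd c₁ c₂ := Int.gcd_pos_of_ne_zero_left _ hs1.ne_zero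
  obtain ⟨d₁, d₂, hcop, hd1, hd2⟩ := Int.exists_gcd_one hκpos
  set κ : ℤ := (Int.gcd c₁ c₂ : ℤ) with hκ
  have hκ0 : 0 < κ := Int.natCast_pos.2 hκpos
  have hκ1 : κ ∣ c₁ := Int.gcd_dvd_left _ _
  have hκ2 : κ ∣ c₂ := Int.gcd_dvd_right _ _
  have hκm : IsCoprime κ m := IsCoprime.of_isCoprime_of_dvd_left hc1m hκ1
  have hdvdb : ∀ q : ℤ, q ∣ c₁ → q ∣ c₂ → q ∣ b := by
    intro q hq1 hq2
    have hqm : IsCoprime q m := IsCoprime.of_isCoprime_of_dvd_left hc1m hq1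
    have hqx : q ∣ x := hq1.trans ⟨y₁ ^ 2, h1⟩
    have hqQ : q ∣ Q := hq2.trans ⟨y₂ ^ 2, h2⟩
    have h3 : q ∣ b * m ^ 2 := by
      have h4 : b * m ^ 2 = Q - x * (x + a * m) := by rw [hQd]; ring
      rw [h4]
      exact dvd_sub hqQ (hqx.mul_right _)
    exact (hqm.pow_right).dvd_of_dvd_mul_right h3
  have hcop' : IsCoprime d₁ d₂ := Int.isCoprime_iff_gcd_eq_one.2 hcop
  have hsd1 : Squarefree d₁ := hs1.squarefree_of_dvd ⟨κ, hd1⟩
  have hsd2 : Squarefree d₂ := hs2.squarefree_of_dvd ⟨κ, hd2⟩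
  have hsd : Squarefree (d₁ * d₂) := (Int.squarefree_natAbs.1 (by
    rw [Int.natAbs_mul]
    exact (Nat.squarefree_mul (Int.isCoprime_iff_gcd_eq_one.1 hcop')).2
      ⟨Int.squarefree_natAbs.2 hsd1, Int.squarefree_natAbs.2 hsd2⟩))
  obtain ⟨v, hv⟩ := sq_lemma (g := g) (F := x * Q) (w := y) (h := d₁ * d₂) (t := κ * y₁ * y₂)
    hy.symm (by
      rw [h1, h2]
      linear_combination (y₁ ^ 2 * y₂ ^ 2 * c₂) * hd1 + (y₁ ^ 2 * y₂ ^ 2 * d₁ * κ) * hd2) hsd (mul_ne_zero (mul_ne_zero hκ0.ne' hy1) hy2)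
  have hv0 : v ≠ 0 := by
    rintro rfl
    apply hgne
    rw [hv]; ring
  -- the root
  obtain ⟨w, u, huw⟩ := hc2m
  have hr : c₂ ∣ (x * u) ^ 2 + a * (x * u) + b := by
    have h3 : (x * u) ^ 2 + a * (x * u) + b =
        u ^ 2 * Q + (a * x * u) * (w * c₂) + b * ((w * c₂) * (1 + u * m)) := by
      have h4 : w * c₂ = 1 - u * m := by linear_combination huw
      rw [h4, hQd]
      ring
    rw [h3]
    refine dvd_add (dvd_add ?_ ?_) ?_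
    · exact Dvd.dvd.mul_left ⟨y₂ ^ 2, h2⟩ _
    · exact Dvd.dvd.mul_left (Dvd.intro_left w rfl) _
    · exact Dvd.dvd.mul_left (Dvd.dvd.mul_right (Dvd.intro_left w rfl) _) _
  refine ⟨c₁, c₂, y₁, y₂, κ, |v|, x * u, ⟨hs1, hs2, hm, hc2pos, ?_, hc1m, ⟨w, u, huw⟩, hr, ?_, ?_⟩,
    h1, h2, by omega, hdvdb κ hκ1 hκ2, Int.one_le_abs hv0, ?_, ?_⟩
  · intro p hp hp1 hp2
    have := (hdvdb p hp1 hp2).trans hbR
    exact_mod_cast this
  · intro p hp hp1 hpR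
    have : Fact p.Prime := ⟨hp⟩
    have hx0 : ((x : ℤ) : ZMod p) = 0 :=
      (ZMod.intCast_zmod_eq_zero_iff_dvd x p).2 (hp1.trans ⟨y₁ ^ 2, h1⟩)
    have hb1 : ((b : ℤ) : ZMod p) ≠ 0 := by
      intro h
      apply hpR
      have := ((ZMod.intCast_zmod_eq_zero_iff_dvd b p).1 h).trans hbR
      exact_mod_cast this
    have hm1 : ((m : ℤ) : ZMod p) ≠ 0 := by
      intro h
      have h3 := (ZMod.intCast_zmod_eq_zero_iff_dvd m p).1 h
      have h4 : IsUnit (p : ℤ) := hc1m.isUnit_of_dvd' hp1 h3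
      rw [Int.isUnit_iff] at h4
      have := hp.two_le
      omega
    have h3 : ((c₂ : ℤ) : ZMod p) * (y₂ : ZMod p) ^ 2 = (b : ZMod p) * (m : ZMod p) ^ 2 := by
      have h4 := congrArg (Int.cast : ℤ → ZMod p) h2
      rw [hQd] at h4
      push_cast at h4
      rw [hx0] at h4
      linear_combination -h4
    have hy2' : (y₂ : ZMod p) ≠ 0 := by
      intro h
      rw [h] at h3
      have : (b : ZMod p) * (m : ZMod p) ^ 2 ≠ 0 := mul_ne_zero hb1 (pow_ne_zero 2 hm1)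
      apply this
      rw [← h3]
      ring
    have h6 : (y₂ : ZMod p) * (y₂ : ZMod p)⁻¹ = 1 := mul_inv_cancel₀ hy2'
    refine ⟨(b : ZMod p) * m * (y₂ : ZMod p)⁻¹, ?_⟩
    push_cast
    linear_combination (-(b : ZMod p) * c₂ * ((y₂ : ZMod p) * (y₂ : ZMod p)⁻¹ + 1)) * h6 +
      ((b : ZMod p) * ((y₂ : ZMod p)⁻¹) ^ 2) * h3
  · intro p hp hp2 hpR
    have : Fact p.Prime := ⟨hp⟩
    refine ⟨(c₁ : ZMod p) * y₁, ?_⟩
    have h3 : (u : ZMod p) * m = 1 := by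
      have h4 := congrArg (Int.cast : ℤ → ZMod p) huw
      push_cast at h4
      rw [(ZMod.intCast_zmod_eq_zero_iff_dvd c₂ p).2 hp2] at h4
      linear_combination h4
    have h4 : (x : ZMod p) = c₁ * y₁ ^ 2 := by
      have := congrArg (Int.cast : ℤ → ZMod p) h1
      push_cast at this
      exact this
    push_cast
    linear_combination (c₁ : ZMod p) * x * h3 + (c₁ : ZMod p) * h4
  · rw [sq_abs, hDg, hv]
    exact ⟨d₁ * d₂ * m, by ring⟩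
  · rw [sq_abs, hDg, hv]
    conv_rhs => rw [hd1, hd2]
    ring

end Pool.Agent.K7.H23.PT
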