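import Pool.Agent.K7.H90.AS.A
import Pool.Agent.K7.H23.PT.FI1

/-!
Project PT: the final assembly, part 2 (small `c₂`; from pairs to twists).
-/

open Polynomial

set_option autoImplicit false

namespace Pool.Agent.K7.H23.PT

open Pool.Agent.K7.H23.AT Pool.Agent.K7.H89.BS

/-- the numbers all of whose large prime factors `p` have `e` as a square modulo `p` -/
theorem small_sq (hDE : StDE) (e : ℤ) (he : ¬ IsSquare e) (K : ℕ) (ε : ℝ) (hε : 0 < ε) :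
    ∃ N₀ : ℕ, ∀ N : ℕ, N₀ ≤ N → (Set.ncard {D : ℤ | D ≠ 0 ∧ |D| ≤ N ∧
      ∀ p : ℕ, p.Prime → (p : ℤ) ∣ D → K < p → IsSquare ((e : ℤ) : ZMod p)} : ℝ) ≤ ε * N := by
  have hΔ : ¬ IsSquare ((0 : ℤ) ^ 2 - 4 * (-e)) := by
    rintro ⟨w, hw⟩
    apply he
    have h1 : (2 : ℤ) ^ 2 ∣ w ^ 2 := ⟨e, by linear_combination -hw⟩
    rw [Int.pow_dvd_pow_iff two_ne_zero] at h1
    obtain ⟨t, rfl⟩ := h1
    exact ⟨t, by linarith⟩
  obtain ⟨N₀, hN₀⟩ := hDE _ (quad_monic 0 (-e)) (quad_irr hΔ) (by rw [quad_deg]) K (ε / 2)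
    (by positivity)
  refine ⟨N₀, fun N hN => ?_⟩
  set T : Set ℕ := {D : ℕ | 1 ≤ D ∧ D ≤ N ∧ ∀ p : ℕ, p.Prime → p ∣ D → K < p →
        ∃ r : ℤ, (p : ℤ) ∣ (X ^ 2 + C 0 * X + C (-e) : ℤ[X]).eval r} with hT
  have hTf : T.Finite := (Set.finite_Icc 1 N).subset fun D hD => ⟨hD.1, hD.2.1⟩
  have hsub : {D : ℤ | D ≠ 0 ∧ |D| ≤ N ∧
      ∀ p : ℕ, p.Prime → (p : ℤ) ∣ D → K < p → IsSquare ((e : ℤ) : ZMod p)} ⊆
      (fun n : ℕ => (n : ℤ)) '' T ∪ (fun n : ℕ => -(n : ℤ)) '' T := by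
    rintro D ⟨hD0, hDN, hD⟩
    have hmem : D.natAbs ∈ T := by
      refine ⟨Int.natAbs_pos.2 hD0, ?_, fun p hp hpD hK => ?_⟩
      · have : ((D.natAbs : ℕ) : ℤ) ≤ N := by rw [Int.natCast_natAbs]; exact hDN
        exact_mod_cast this
      · have : Fact p.Prime := ⟨hp⟩
        obtain ⟨s, hs⟩ := hD p hp (Int.natCast_dvd.2 hpD) hK
        refine ⟨(s.val : ℤ), ?_⟩
        rw [← ZMod.intCast_zmod_eq_zero_iff_dvd]
        simp only [eval_add, eval_pow, eval_X, eval_mul, eval_C, zero_mul, add_zero]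
        push_cast
        rw [ZMod.natCast_zmod_val, hs]
        ring
    rcases Int.natAbs_eq D with h | h
    · exact Or.inl ⟨D.natAbs, hmem, h.symm⟩
    · exact Or.inr ⟨D.natAbs, hmem, h.symm⟩
  have h1 := Set.ncard_le_ncard hsub ((hTf.image _).union (hTf.image _))
  have h2 := (h1.trans (Set.ncard_union_le _ _)).trans
    (Nat.add_le_add (Set.ncard_image_le hTf) (Set.ncard_image_le hTf))
  have h3 : (T.ncard : ℝ) ≤ ε / 2 * N := hN₀ N hN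
  have h4 : (Set.ncard {D : ℤ | D ≠ 0 ∧ |D| ≤ N ∧
      ∀ p : ℕ, p.Prime → (p : ℤ) ∣ D → K < p → IsSquare ((e : ℤ) : ZMod p)} : ℝ) ≤
      T.ncard + T.ncard := by exact_mod_cast h2
  linarith

/-- the data without `D` -/
def Par (a b : ℤ) (R N Mx : ℕ) (x m c₁ c₂ r : ℤ) : Prop :=
  Loc a b R c₁ c₂ m r ∧ IsCoprime x m ∧ m ≤ N ∧ (N : ℤ) ^ Mx < |x| ∧
    (∃ y, x = c₁ * y ^ 2) ∧ (∃ y, x ^ 2 + a * x * m + b * m ^ 2 = c₂ * y ^ 2) ∧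
    |c₁| * c₂ * m ≤ (R : ℤ) ^ 2 * N

/-- from pairs to twists -/
theorem via_pairs {a b : ℤ} (hΔ : ¬ IsSquare (a ^ 2 - 4 * b)) {R S0 N Mx B : ℕ}
    (T : ℤ → ℤ → ℤ → ℤ → Prop)
    (hB : ∀ s : Finset (ℤ × ℤ), (∀ p ∈ s, ∃ c₁ c₂ r : ℤ, Par a b R N Mx p.1 p.2 c₁ c₂ r ∧
      T p.1 p.2 c₁ c₂) → s.card ≤ B) :
    Set.ncard {D : ℤ | D ≠ 0 ∧ |D| ≤ N ∧ ∃ x m c₁ c₂ r κ v : ℤ, Par a b R N Mx x m c₁ c₂ r ∧
      T x m c₁ c₂ ∧ 1 ≤ κ ∧ κ ≤ R ∧ 1 ≤ v ∧ v ≤ S0 ∧ D * κ ^ 2 = c₁ * c₂ * m * v ^ 2} ≤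
      R * S0 * B := by
  classical
  set A : Set ℤ := {D : ℤ | D ≠ 0 ∧ |D| ≤ N ∧ ∃ x m c₁ c₂ r κ v : ℤ,
    Par a b R N Mx x m c₁ c₂ r ∧
      T x m c₁ c₂ ∧ 1 ≤ κ ∧ κ ≤ R ∧ 1 ≤ v ∧ v ≤ S0 ∧ D * κ ^ 2 = c₁ * c₂ * m * v ^ 2} with hA
  have hAf : A.Finite := by
    apply (Set.finite_Icc (-(N : ℤ)) N).subset
    intro D hD
    exact abs_le.1 hD.2.1
  have hdata : ∀ D : ℤ, ∃ x m c₁ c₂ r κ v : ℤ, D ∈ A → Par a b R N Mx x m c₁ c₂ r ∧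
      T x m c₁ c₂ ∧ 1 ≤ κ ∧ κ ≤ R ∧ 1 ≤ v ∧ v ≤ S0 ∧ D * κ ^ 2 = c₁ * c₂ * m * v ^ 2 := by
    intro D
    by_cases hD : D ∈ A
    · obtain ⟨-, -, x, m, c₁, c₂, r, κ, v, h⟩ := hD
      exact ⟨x, m, c₁, c₂, r, κ, v, fun _ => h⟩
    · exact ⟨0, 0, 0, 0, 0, 0, 0, fun h => absurd h hD⟩
  choose x m c₁ c₂ r κ v hd using hdata
  have hmem : ∀ D, D ∈ hAf.toFinset ↔ D ∈ A := fun D => Set.Finite.mem_toFinset _
  set P : Finset (ℤ × ℤ) := hAf.toFinset.image fun D => (x D, m D) with hP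
  have hPc : P.card ≤ B := by
    apply hB
    intro p hp
    rw [hP, Finset.mem_image] at hp
    obtain ⟨D, hD, rfl⟩ := hp
    obtain ⟨h1, h2, -⟩ := hd D ((hmem D).1 hD)
    exact ⟨c₁ D, c₂ D, r D, h1, h2⟩
  rw [Set.ncard_eq_toFinset_card _ hAf]
  have h1 : hAf.toFinset.card ≤
      ((Finset.Icc (1 : ℤ) R) ×ˢ ((Finset.Icc (1 : ℤ) S0) ×ˢ P)).card := by
    apply Finset.card_le_card_of_injOn (fun D => (κ D, (v D, (x D, m D))))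
    · intro D hD
      obtain ⟨-, -, h3, h4, h5, h6, -⟩ := hd D ((hmem D).1 hD)
      rw [Finset.mem_coe, Finset.mem_product, Finset.mem_product]
      exact ⟨Finset.mem_Icc.2 ⟨h3, h4⟩, Finset.mem_Icc.2 ⟨h5, h6⟩,
        Finset.mem_image_of_mem _ hD⟩
    · intro D hD D' hD' heq
      obtain ⟨h1, -, h3, -, -, -, h7⟩ := hd D ((hmem D).1 hD)
      obtain ⟨h1', -, -, -, -, -, h7'⟩ := hd D' ((hmem D').1 hD')
      simp only [Prod.mk.injEq] at heq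
      obtain ⟨e1, e2, e3, e4⟩ := heq
      obtain ⟨hL, -, -, hxN, ⟨y1, hy1⟩, ⟨y2, hy2⟩, -⟩ := h1
      obtain ⟨hL', -, -, -, ⟨y1', hy1'⟩, ⟨y2', hy2'⟩, -⟩ := h1'
      have hx0 : x D ≠ 0 := by
        intro h0
        rw [h0, abs_zero] at hxN
        have : (0 : ℤ) ≤ (N : ℤ) ^ Mx := by positivity
        omega
      have hQ0 := quad_no_root hΔ hL.2.2.1.ne' (x := x D)
      have k1 : c₁ D = c₁ D' := Pool.Agent.K7.H90.AS.sqf_unique hL.1 hL'.1 hx0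
        (u := c₁ D * y1) (v := c₁ D' * y1') (by
          conv_lhs => rw [hy1]
          ring) (by
          conv_lhs => rw [e3, hy1']
          ring)
      have k2 : c₂ D = c₂ D' := Pool.Agent.K7.H90.AS.sqf_unique hL.2.1 hL'.2.1 hQ0
        (u := c₂ D * y2) (v := c₂ D' * y2') (by
          rw [hy2]
          ring) (by
          rw [e3, e4, hy2']
          ring)
      apply mul_right_cancel₀ (pow_ne_zero 2 (show κ D ≠ 0 by omega))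
      rw [h7]
      conv_rhs => rw [e1, h7']
      rw [k1, k2, e4, e2]
  refine h1.trans ?_
  rw [Finset.card_product, Finset.card_product, Int.card_Icc, Int.card_Icc]
  have h2 : ((R : ℤ) + 1 - 1).toNat = R := by omega
  have h3 : ((S0 : ℤ) + 1 - 1).toNat = S0 := by omega
  rw [h2, h3, mul_assoc]
  exact Nat.mul_le_mul_left _ (Nat.mul_le_mul_left _ hPc)

end Pool.Agent.K7.H23.PT
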