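import Pool.Agent.K7.H23.PT.FI2

/-!
Project PT: the final assembly, part 3 (the pairs).
-/

open Polynomial

set_option autoImplicit false

namespace Pool.Agent.K7.H23.PT

open Pool.Agent.K7.H23.AT Pool.Agent.K7.H89.BS

lemma par_c1 {a b : ℤ} {R N Mx : ℕ} {x m c₁ c₂ r : ℤ} (h : Par a b R N Mx x m c₁ c₂ r) :
    1 ≤ |c₁| ∧ 1 ≤ c₂ ∧ 1 ≤ m :=
  ⟨Int.one_le_abs h.1.1.ne_zero, h.1.2.2.2.1, h.1.2.2.1⟩

/-- pairs in a box -/
theorem box (hBX : StBX) : ∃ M : ℕ, ∀ a b : ℤ, ¬ IsSquare (a ^ 2 - 4 * b) → b ≠ 0 →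
    ∀ R : ℕ, 1 ≤ R → ∃ C N₀ : ℕ, ∀ N Mx : ℕ, N₀ ≤ N → M ≤ Mx → ∀ Y₁ Y₂ : ℕ,
      Y₁ * Y₂ ≤ 2 * R ^ 2 * N → ∀ s : Finset (ℤ × ℤ), (∀ p ∈ s, ∃ c₁ c₂ r : ℤ,
        Par a b R N Mx p.1 p.2 c₁ c₂ r ∧ |c₁| ≤ Y₁ ∧ c₂ ≤ Y₂) → s.card ≤ C * (Y₁ * Y₂) := by
  obtain ⟨M, hM⟩ := hBX
  refine ⟨M + 1, fun a b hΔ hb R hR => ?_⟩
  obtain ⟨C, N₀, hC⟩ := hM a b hΔ hb
  refine ⟨C, N₀ + (2 * R ^ 2) ^ M + 1, fun N Mx hN hMx Y₁ Y₂ hY s hs => ?_⟩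
  rcases s.eq_empty_or_nonempty with rfl | ⟨p0, hp0⟩
  · simp
  have hN1 : 1 ≤ N := by omega
  have hR2 : 1 ≤ 2 * R ^ 2 := by
    have := Nat.one_le_pow 2 R hR
    omega
  obtain ⟨c₁, c₂, r, h1, h2, h3⟩ := hs p0 hp0
  obtain ⟨k1, k2, -⟩ := par_c1 h1
  apply hC (2 * R ^ 2 * N) Y₁ Y₂ _ (by omega) (by omega) hY
  · intro p hp
    obtain ⟨c₁, c₂, r, ⟨hL, hco, hmN, hx, ⟨y1, hy1⟩, ⟨y2, hy2⟩, -⟩, h2, h3⟩ := hs p hp
    refine ⟨hL.2.2.1, ?_, hco, lt_of_le_of_lt ?_ hx, ⟨c₁, y1, hL.1, h2, hy1⟩,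
      ⟨c₂, y2, hL.2.1, ?_, hy2⟩⟩
    · refine hmN.trans ?_
      have : N ≤ 2 * R ^ 2 * N := Nat.le_mul_of_pos_left _ hR2
      exact_mod_cast this
    · have h4 : (2 * R ^ 2 * N) ^ M ≤ N ^ Mx := by
        calc (2 * R ^ 2 * N) ^ M = (2 * R ^ 2) ^ M * N ^ M := mul_pow _ _ _
          _ ≤ N * N ^ M := Nat.mul_le_mul_right _ (by omega)
          _ = N ^ (M + 1) := by ring
          _ ≤ N ^ Mx := Nat.pow_le_pow_right hN1 hMx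
      exact_mod_cast h4
    · rw [abs_of_pos hL.2.2.2.1]
      exact h3
  · have : N ≤ 2 * R ^ 2 * N := Nat.le_mul_of_pos_left _ hR2
    omega

/-- large `c₂`, and `m` large in terms of `c₂` -/
theorem pairs2 {a b : ℤ} {R C N Mx i0 : ℕ} (hi0 : 1 ≤ i0)
    (hbox : ∀ Y₁ Y₂ : ℕ, Y₁ * Y₂ ≤ 2 * R ^ 2 * N → ∀ s : Finset (ℤ × ℤ), (∀ p ∈ s,
      ∃ c₁ c₂ r : ℤ, Par a b R N Mx p.1 p.2 c₁ c₂ r ∧ |c₁| ≤ Y₁ ∧ c₂ ≤ Y₂) →
        s.card ≤ C * (Y₁ * Y₂))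
    (s : Finset (ℤ × ℤ)) (hs : ∀ p ∈ s, ∃ c₁ c₂ r : ℤ, Par a b R N Mx p.1 p.2 c₁ c₂ r ∧
      (2 : ℤ) ^ i0 ≤ c₂ ∧ (Nat.log 2 c₂.natAbs : ℤ) ^ 2 < p.2) :
    (s.card : ℝ) ≤ C * (2 * R ^ 2 * N) * (2 / i0) := by
  classical
  have hdata : ∀ p : ℤ × ℤ, ∃ c₁ c₂ r : ℤ, p ∈ s → Par a b R N Mx p.1 p.2 c₁ c₂ r ∧
      (2 : ℤ) ^ i0 ≤ c₂ ∧ (Nat.log 2 c₂.natAbs : ℤ) ^ 2 < p.2 := by
    intro p
    by_cases hp : p ∈ s
    · obtain ⟨c₁, c₂, r, h⟩ := hs p hp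
      exact ⟨c₁, c₂, r, fun _ => h⟩
    · exact ⟨0, 0, 0, fun h => absurd h hp⟩
  choose c₁ c₂ r hd using hdata
  set L := Nat.log 2 (R ^ 2 * N) with hL
  set i : ℤ × ℤ → ℕ := fun p => Nat.log 2 (c₂ p).natAbs with hi
  have hi1 : ∀ p ∈ s, i0 ≤ i p ∧ i p ≤ L ∧ (2 : ℤ) ^ (i p) ≤ c₂ p ∧ c₂ p < 2 ^ (i p + 1) := by
    intro p hp
    obtain ⟨h1, h2, h3⟩ := hd p hp
    obtain ⟨k1, k2, k3⟩ := par_c1 h1
    have hc : ((c₂ p).natAbs : ℤ) = c₂ p := by rw [Int.natCast_natAbs, abs_of_pos (by omega)]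
    refine ⟨?_, ?_, ?_, ?_⟩
    · apply Nat.le_log_of_pow_le (by norm_num)
      have : ((2 ^ i0 : ℕ) : ℤ) ≤ ((c₂ p).natAbs : ℤ) := by rw [hc]; exact_mod_cast h2
      exact_mod_cast this
    · apply Nat.log_mono_right
      have h4 := h1.2.2.2.2.2.2
      have h5 : c₂ p ≤ (R : ℤ) ^ 2 * N := by
        refine le_trans ?_ h4
        have : 1 * c₂ p * 1 ≤ |c₁ p| * c₂ p * p.2 := by
          apply mul_le_mul (mul_le_mul_of_nonneg_right k1 (by omega)) k3 (by norm_num)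
          exact mul_nonneg (abs_nonneg _) (by omega)
        linarith
      have : ((c₂ p).natAbs : ℤ) ≤ ((R ^ 2 * N : ℕ) : ℤ) := by
        rw [hc]; push_cast; exact h5
      exact_mod_cast this
    · have := Nat.pow_log_le_self 2 (x := (c₂ p).natAbs) (by omega)
      calc (2 : ℤ) ^ (i p) = ((2 ^ (i p) : ℕ) : ℤ) := by push_cast; rfl
        _ ≤ ((c₂ p).natAbs : ℤ) := by exact_mod_cast this
        _ = c₂ p := hc
    · have := Nat.lt_pow_succ_log_self (b := 2) (by norm_num) (c₂ p).natAbs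
      calc c₂ p = ((c₂ p).natAbs : ℤ) := hc.symm
        _ < ((2 ^ (i p + 1) : ℕ) : ℤ) := by exact_mod_cast this
        _ = 2 ^ (i p + 1) := by push_cast; rfl
  have hcov : s ⊆ (Finset.Ioo (i0 - 1) (L + 1)).biUnion fun j => s.filter fun p => i p = j := by
    intro p hp
    obtain ⟨h1, h2, -⟩ := hi1 p hp
    rw [Finset.mem_biUnion]
    exact ⟨i p, Finset.mem_Ioo.2 (by omega), Finset.mem_filter.2 ⟨hp, rfl⟩⟩
  have hterm : ∀ j ∈ Finset.Ioo (i0 - 1) (L + 1), ((s.filter fun p => i p = j).card : ℝ) ≤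
      C * (2 * R ^ 2 * N) * ((j : ℝ) ^ 2)⁻¹ := by
    intro j hj
    rw [Finset.mem_Ioo] at hj
    have hj1 : 1 ≤ j := by omega
    have hY : R ^ 2 * N / (2 ^ j * j ^ 2) * 2 ^ (j + 1) ≤ 2 * R ^ 2 * N := by
      have h1 : R ^ 2 * N / (2 ^ j * j ^ 2) * (2 ^ j * j ^ 2) ≤ R ^ 2 * N := Nat.div_mul_le_self _ _
      have h2 : R ^ 2 * N / (2 ^ j * j ^ 2) * 2 ^ j ≤
          R ^ 2 * N / (2 ^ j * j ^ 2) * (2 ^ j * j ^ 2) :=
        Nat.mul_le_mul_left _ (Nat.le_mul_of_pos_right _ (by positivity))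
      calc _ = 2 * (R ^ 2 * N / (2 ^ j * j ^ 2) * 2 ^ j) := by ring
        _ ≤ 2 * (R ^ 2 * N) := Nat.mul_le_mul_left _ (h2.trans h1)
        _ = _ := by ring
    have h1 := hbox (R ^ 2 * N / (2 ^ j * j ^ 2)) (2 ^ (j + 1)) hY (s.filter fun p => i p = j) (by
      intro p hp
      rw [Finset.mem_filter] at hp
      obtain ⟨hps, hpj⟩ := hp
      obtain ⟨k1, k2, k3⟩ := hd p hps
      obtain ⟨-, -, k4, k5⟩ := hi1 p hps
      obtain ⟨l1, l2, l3⟩ := par_c1 k1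
      refine ⟨c₁ p, c₂ p, r p, k1, ?_, ?_⟩
      · have h4 := k1.2.2.2.2.2.2
        rw [hpj] at k4
        have k3' : (j : ℤ) ^ 2 < p.2 := by
          rw [← hpj]
          exact k3
        have h5 : |c₁ p| * (2 ^ j * (j : ℤ) ^ 2) ≤ (R : ℤ) ^ 2 * N := by
          calc |c₁ p| * (2 ^ j * (j : ℤ) ^ 2) ≤ |c₁ p| * (c₂ p * p.2) := by
                apply mul_le_mul_of_nonneg_left _ (abs_nonneg _)
                exact mul_le_mul k4 k3'.le (by positivity) (by omega)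
            _ = |c₁ p| * c₂ p * p.2 := by ring
            _ ≤ _ := h4
        have h6 : (c₁ p).natAbs ≤ R ^ 2 * N / (2 ^ j * j ^ 2) := by
          rw [Nat.le_div_iff_mul_le (by positivity)]
          have : (((c₁ p).natAbs * (2 ^ j * j ^ 2) : ℕ) : ℤ) ≤ ((R ^ 2 * N : ℕ) : ℤ) := by
            push_cast
            exact h5
          exact_mod_cast this
        rw [← Int.natCast_natAbs]
        exact_mod_cast h6
      · rw [hpj] at k5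
        push_cast
        exact k5.le)
    have hj0 : (0 : ℝ) < j := by exact_mod_cast hj1
    have h2 : ((R ^ 2 * N / (2 ^ j * j ^ 2) : ℕ) : ℝ) ≤ (R ^ 2 * N : ℝ) / (2 ^ j * j ^ 2) := by
      have := @Nat.cast_div_le ℝ _ _ _ (R ^ 2 * N) (2 ^ j * j ^ 2)
      push_cast at this
      exact this
    calc ((s.filter fun p => i p = j).card : ℝ)
        ≤ ((C * (R ^ 2 * N / (2 ^ j * j ^ 2) * 2 ^ (j + 1)) : ℕ) : ℝ) := by exact_mod_cast h1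
      _ = C * (((R ^ 2 * N / (2 ^ j * j ^ 2) : ℕ) : ℝ) * 2 ^ (j + 1)) := by push_cast; ring
      _ ≤ C * ((R ^ 2 * N : ℝ) / (2 ^ j * j ^ 2) * 2 ^ (j + 1)) := by gcongr
      _ = C * (2 * R ^ 2 * N) * ((j : ℝ) ^ 2)⁻¹ := by
          rw [pow_succ]
          field_simp
          ring
  have hsum : ∑ j ∈ Finset.Ioo (i0 - 1) (L + 1), ((j : ℝ) ^ 2)⁻¹ ≤ 2 / i0 := by
    have := sum_Ioo_inv_sq_le (α := ℝ) (i0 - 1) (L + 1)
    have h1 : (((i0 - 1 : ℕ) : ℝ) + 1) = i0 := by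
      rw [Nat.cast_sub hi0]
      push_cast
      ring
    rw [h1] at this
    exact this
  calc (s.card : ℝ) ≤ ((∑ j ∈ Finset.Ioo (i0 - 1) (L + 1),
        (s.filter fun p => i p = j).card : ℕ) : ℝ) := by
        exact_mod_cast (Finset.card_le_card hcov).trans Finset.card_biUnion_le
    _ = ∑ j ∈ Finset.Ioo (i0 - 1) (L + 1), ((s.filter fun p => i p = j).card : ℝ) := by
        push_cast; rfl
    _ ≤ ∑ j ∈ Finset.Ioo (i0 - 1) (L + 1), C * (2 * R ^ 2 * N) * ((j : ℝ) ^ 2)⁻¹ :=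
        Finset.sum_le_sum hterm
    _ = C * (2 * R ^ 2 * N) * ∑ j ∈ Finset.Ioo (i0 - 1) (L + 1), ((j : ℝ) ^ 2)⁻¹ :=
        (Finset.mul_sum _ _ _).symm
    _ ≤ C * (2 * R ^ 2 * N) * (2 / i0) := mul_le_mul_of_nonneg_left hsum (by positivity)

/-- small `c₂` and large `m` -/
theorem pairs3 {a b : ℤ} {R C N Mx X1 Mm : ℕ} (hM : X1 ≤ Mm) (hX1 : 1 ≤ X1)
    (hbox : ∀ Y₁ Y₂ : ℕ, Y₁ * Y₂ ≤ 2 * R ^ 2 * N → ∀ s : Finset (ℤ × ℤ), (∀ p ∈ s,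
      ∃ c₁ c₂ r : ℤ, Par a b R N Mx p.1 p.2 c₁ c₂ r ∧ |c₁| ≤ Y₁ ∧ c₂ ≤ Y₂) →
        s.card ≤ C * (Y₁ * Y₂))
    (s : Finset (ℤ × ℤ)) (hs : ∀ p ∈ s, ∃ c₁ c₂ r : ℤ, Par a b R N Mx p.1 p.2 c₁ c₂ r ∧
      c₂ ≤ X1 ∧ (Mm : ℤ) ≤ p.2) :
    (s.card : ℝ) ≤ C * (R ^ 2 * N) * X1 / Mm := by
  have hMm : 0 < Mm := by omega
  have hY : R ^ 2 * N / Mm * X1 ≤ 2 * R ^ 2 * N := by
    calc R ^ 2 * N / Mm * X1 ≤ R ^ 2 * N / Mm * Mm := Nat.mul_le_mul_left _ hM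
      _ ≤ R ^ 2 * N := Nat.div_mul_le_self _ _
      _ ≤ 2 * R ^ 2 * N := by
          rw [mul_assoc]
          exact Nat.le_mul_of_pos_left _ (by norm_num)
  have h1 := hbox (R ^ 2 * N / Mm) X1 hY s (by
    intro p hp
    obtain ⟨c₁, c₂, r, k1, k2, k3⟩ := hs p hp
    obtain ⟨l1, l2, l3⟩ := par_c1 k1
    refine ⟨c₁, c₂, r, k1, ?_, k2⟩
    have h4 := k1.2.2.2.2.2.2
    have h5 : |c₁| * Mm ≤ (R : ℤ) ^ 2 * N := by
      calc |c₁| * Mm ≤ |c₁| * (c₂ * p.2) := by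
            apply mul_le_mul_of_nonneg_left _ (abs_nonneg _)
            nlinarith
        _ = |c₁| * c₂ * p.2 := by ring
        _ ≤ _ := h4
    have h6 : c₁.natAbs ≤ R ^ 2 * N / Mm := by
      rw [Nat.le_div_iff_mul_le hMm]
      have : ((c₁.natAbs * Mm : ℕ) : ℤ) ≤ ((R ^ 2 * N : ℕ) : ℤ) := by
        push_cast
        exact h5
      exact_mod_cast this
    rw [← Int.natCast_natAbs]
    exact_mod_cast h6)
  have h2 : ((R ^ 2 * N / Mm : ℕ) : ℝ) ≤ (R ^ 2 * N : ℝ) / Mm := by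
    have := @Nat.cast_div_le ℝ _ _ _ (R ^ 2 * N) Mm
    push_cast at this
    exact this
  calc (s.card : ℝ) ≤ ((C * (R ^ 2 * N / Mm * X1) : ℕ) : ℝ) := by exact_mod_cast h1
    _ = C * (((R ^ 2 * N / Mm : ℕ) : ℝ) * X1) := by push_cast; ring
    _ ≤ C * ((R ^ 2 * N : ℝ) / Mm * X1) := by gcongr
    _ = _ := by ring

/-- the torsion class -/
theorem pairs5 (hTO : StTO) : ∃ M : ℕ, ∀ a b : ℤ, ¬ IsSquare (a ^ 2 - 4 * b) → b ≠ 0 →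
    ∀ R Mm : ℕ, 1 ≤ R → ∀ δ : ℝ, 0 < δ → ∃ N₀ : ℕ, ∀ N Mx : ℕ, N₀ ≤ N → M ≤ Mx →
      ∀ s : Finset (ℤ × ℤ), (∀ p ∈ s, ∃ c₁ c₂ r : ℤ,
        Par a b R N Mx p.1 p.2 c₁ c₂ r ∧ p.2 ≤ Mm ∧ IsSquare (b * c₂)) →
        (s.card : ℝ) ≤ δ * N := by
  classical
  obtain ⟨M, hM⟩ := hTO
  refine ⟨M + 1, fun a b hΔ hb R Mm hR δ hδ => ?_⟩
  have h0 : ∀ m : ℤ, ∃ C N₀ : ℕ, 0 < m → ∀ N : ℕ, N₀ ≤ N → ∀ s : Finset ℤ,
      (∀ x ∈ s, IsCoprime x m ∧ (N : ℤ) ^ M < |x| ∧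
        (∃ c y : ℤ, Squarefree c ∧ |c| ≤ N ∧ x = c * y ^ 2) ∧
        IsSquare (b * (x ^ 2 + a * x * m + b * m ^ 2))) → s.card ^ 4 ≤ C * N ^ 3 := by
    intro m
    by_cases hm : 0 < m
    · obtain ⟨C, N₀, h⟩ := hM a b m hΔ hb hm
      exact ⟨C, N₀, fun _ => h⟩
    · exact ⟨0, 0, fun h => absurd h hm⟩
  choose C N₀ hC using h0
  set I := Finset.Icc (1 : ℤ) Mm with hI
  set δ' : ℝ := δ / (Mm + 1) with hδ'
  have hδ'0 : 0 < δ' := by positivity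
  refine ⟨∑ m ∈ I, N₀ m + R ^ (2 * M) + ∑ m ∈ I, ⌈C m * (R : ℝ) ^ 6 / δ' ^ 4⌉₊ + 1,
    fun N Mx hN hMx s hs => ?_⟩
  have hN1 : 1 ≤ N := by omega
  have hcov : s ⊆ I.biUnion fun m => s.filter fun p => p.2 = m := by
    intro p hp
    obtain ⟨c₁, c₂, r, k1, k2, k3⟩ := hs p hp
    obtain ⟨l1, l2, l3⟩ := par_c1 k1
    rw [Finset.mem_biUnion]
    exact ⟨p.2, Finset.mem_Icc.2 ⟨l3, k2⟩, Finset.mem_filter.2 ⟨hp, rfl⟩⟩
  have hterm : ∀ m ∈ I, ((s.filter fun p => p.2 = m).card : ℝ) ≤ δ' * N := by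
    intro m hm
    have hm1 : 0 < m := by
      rw [hI, Finset.mem_Icc] at hm
      omega
    have hN0m : N₀ m ≤ R ^ 2 * N := by
      have h1 : N₀ m ≤ ∑ m ∈ I, N₀ m := Finset.single_le_sum (f := N₀) (fun _ _ => Nat.zero_le _) hm
      have h2 : N ≤ R ^ 2 * N := Nat.le_mul_of_pos_left _ (by positivity)
      omega
    have hcard : (s.filter fun p => p.2 = m).card =
        ((s.filter fun p => p.2 = m).image Prod.fst).card := by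
      rw [Finset.card_image_of_injOn]
      intro p hp q hq hpq
      rw [Finset.mem_coe, Finset.mem_filter] at hp hq
      exact Prod.ext hpq (hp.2.trans hq.2.symm)
    have h1 := hC m hm1 (R ^ 2 * N) hN0m ((s.filter fun p => p.2 = m).image Prod.fst) (by
      intro x hx
      rw [Finset.mem_image] at hx
      obtain ⟨p, hp, rfl⟩ := hx
      rw [Finset.mem_filter] at hp
      obtain ⟨hps, rfl⟩ := hp
      obtain ⟨c₁, c₂, r, k1, k2, ⟨w, hw⟩⟩ := hs p hps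
      obtain ⟨l1, l2, l3⟩ := par_c1 k1
      obtain ⟨hL, hco, hmN, hx, ⟨y1, hy1⟩, ⟨y2, hy2⟩, hsz⟩ := k1
      refine ⟨hco, lt_of_le_of_lt ?_ hx, ⟨c₁, y1, hL.1, ?_, hy1⟩, ?_⟩
      · have h4 : (R ^ 2 * N) ^ M ≤ N ^ Mx := by
          calc (R ^ 2 * N) ^ M = R ^ (2 * M) * N ^ M := by rw [mul_pow, ← pow_mul]
            _ ≤ N * N ^ M := Nat.mul_le_mul_right _ (by omega)
            _ = N ^ (M + 1) := by ring
            _ ≤ N ^ Mx := Nat.pow_le_pow_right hN1 hMx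
        exact_mod_cast h4
      · push_cast
        refine le_trans ?_ hsz
        calc |c₁| = |c₁| * 1 * 1 := by ring
          _ ≤ |c₁| * c₂ * p.2 := by
              apply mul_le_mul (mul_le_mul_of_nonneg_left l2 (abs_nonneg _)) l3 (by norm_num)
              exact mul_nonneg (abs_nonneg _) (by omega)
      · rw [hy2]
        exact ⟨w * y2, by linear_combination y2 ^ 2 * hw⟩)
    rw [← hcard] at h1
    have h2 : C m * (R : ℝ) ^ 6 / δ' ^ 4 ≤ N := by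
      have h3 : ⌈C m * (R : ℝ) ^ 6 / δ' ^ 4⌉₊ ≤ ∑ m ∈ I, ⌈C m * (R : ℝ) ^ 6 / δ' ^ 4⌉₊ :=
        Finset.single_le_sum (f := fun m => ⌈C m * (R : ℝ) ^ 6 / δ' ^ 4⌉₊)
          (fun _ _ => Nat.zero_le _) hm
      have h5 : ⌈C m * (R : ℝ) ^ 6 / δ' ^ 4⌉₊ ≤ N := by omega
      exact (Nat.le_ceil _).trans (Nat.cast_le.2 h5)
    rw [div_le_iff₀ (by positivity)] at h2
    have h3 : ((s.filter fun p => p.2 = m).card : ℝ) ^ 4 ≤ (δ' * N) ^ 4 := by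
      calc ((s.filter fun p => p.2 = m).card : ℝ) ^ 4 ≤ ((C m * (R ^ 2 * N) ^ 3 : ℕ) : ℝ) := by
            exact_mod_cast h1
        _ = (C m * (R : ℝ) ^ 6) * N ^ 3 := by push_cast; ring
        _ ≤ (N * δ' ^ 4) * N ^ 3 := mul_le_mul_of_nonneg_right h2 (by positivity)
        _ = (δ' * N) ^ 4 := by ring
    exact le_of_pow_le_pow_left₀ (by norm_num) (by positivity) h3
  have hIc : (I.card : ℝ) = Mm := by
    rw [hI, Int.card_Icc]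
    have : ((Mm : ℤ) + 1 - 1).toNat = Mm := by omega
    rw [this]
  calc (s.card : ℝ) ≤ ((∑ m ∈ I, (s.filter fun p => p.2 = m).card : ℕ) : ℝ) := by
        exact_mod_cast (Finset.card_le_card hcov).trans Finset.card_biUnion_le
    _ = ∑ m ∈ I, ((s.filter fun p => p.2 = m).card : ℝ) := by push_cast; rfl
    _ ≤ ∑ m ∈ I, δ' * N := Finset.sum_le_sum hterm
    _ = Mm * (δ' * N) := by rw [Finset.sum_const, nsmul_eq_mul, hIc]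
    _ ≤ δ * N := by
        rw [hδ']
        have : (Mm : ℝ) / (Mm + 1) ≤ 1 := by
          rw [div_le_one (by positivity)]
          linarith
        calc (Mm : ℝ) * (δ / (Mm + 1) * N) = (Mm / (Mm + 1)) * (δ * N) := by ring
          _ ≤ 1 * (δ * N) := mul_le_mul_of_nonneg_right this (by positivity)
          _ = _ := one_mul _

end Pool.Agent.K7.H23.PT
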