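import Pool.Agent.K7.H23.PT.FI3

/-!
Project PT: the final assembly, part 4.
-/

open Polynomial

set_option autoImplicit false

namespace Pool.Agent.K7.H23.PT

open Pool.Agent.K7.H23.AT Pool.Agent.K7.H89.BS

/-- large `c₂`, small `m` -/
theorem part1 (hAN : StAN) {a b : ℤ} {R : ℕ} (hΔ : ¬ IsSquare (a ^ 2 - 4 * b)) (hR : 1 ≤ R)
    (hRb : 2 * b * (a ^ 2 - 4 * b) ∣ (R : ℤ)) (S0 : ℕ) (hS0 : 1 ≤ S0) (ε : ℝ) (hε : 0 < ε) :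
    ∃ X₀ N₀ : ℕ, 1 ≤ X₀ ∧ ∀ N Mx : ℕ, N₀ ≤ N →
      (Set.ncard {D : ℤ | D ≠ 0 ∧ |D| ≤ N ∧ ∃ x m c₁ c₂ r κ v : ℤ, Par a b R N Mx x m c₁ c₂ r ∧
        ((X₀ : ℤ) ≤ c₂ ∧ m ≤ (Nat.log 2 c₂.natAbs : ℤ) ^ 2) ∧
        1 ≤ κ ∧ κ ≤ R ∧ 1 ≤ v ∧ v ≤ S0 ∧ D * κ ^ 2 = c₁ * c₂ * m * v ^ 2} : ℝ) ≤ ε * N := by
  classical
  have hRpos : (0 : ℝ) < R := by exact_mod_cast hR
  have hSpos : (0 : ℝ) < S0 := by exact_mod_cast hS0
  obtain ⟨X₀, N₀, hX₀, hN₀⟩ := hAN a b R hΔ hR hRb (ε / (R * S0 * R ^ 2)) (by positivity)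
  refine ⟨X₀, N₀, hX₀, fun N Mx hN => ?_⟩
  set E : Set ℤ := {D : ℤ | D ≠ 0 ∧ |D| ≤ (R ^ 2 * N : ℕ) ∧ ∃ c₁ c₂ m r : ℤ, D = c₁ * c₂ * m ∧
      Loc a b R c₁ c₂ m r ∧ (X₀ : ℤ) ≤ c₂ ∧ m ≤ (Nat.log 2 c₂.natAbs : ℤ) ^ 2} with hE
  have hEf : E.Finite := (Set.finite_Icc (-((R ^ 2 * N : ℕ) : ℤ)) (R ^ 2 * N : ℕ)).subset
    fun D hD => abs_le.1 hD.2.1
  have hEc : (E.ncard : ℝ) ≤ ε / (R * S0 * R ^ 2) * (R ^ 2 * N : ℕ) :=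
    hN₀ (R ^ 2 * N) (hN.trans (Nat.le_mul_of_pos_left _ (by positivity)))
  set T : ℤ × ℤ → Set ℤ := fun q => {D : ℤ | D ≠ 0 ∧ ∃ D' ∈ E, D * q.1 ^ 2 = D' * q.2 ^ 2} with hT
  set J := (Finset.Icc (1 : ℤ) R) ×ˢ (Finset.Icc (1 : ℤ) S0) with hJ
  have hTc : ∀ q ∈ J, (T q).Finite ∧ (T q).ncard ≤ E.ncard := by
    intro q hq
    rw [hJ, Finset.mem_product, Finset.mem_Icc, Finset.mem_Icc] at hq
    have hinj : ∀ D D' E', D * q.1 ^ 2 = E' * q.2 ^ 2 → D' * q.1 ^ 2 = E' * q.2 ^ 2 → D = D' := by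
      intro D D' E' h1 h2
      apply mul_right_cancel₀ (pow_ne_zero 2 (show q.1 ≠ 0 by omega))
      rw [h1, h2]
    have h1 : ∀ D : ℤ, ∃ D' : ℤ, D ∈ T q → D' ∈ E ∧ D * q.1 ^ 2 = D' * q.2 ^ 2 := by
      intro D
      by_cases hD : D ∈ T q
      · obtain ⟨-, D', h1, h2⟩ := hD
        exact ⟨D', fun _ => ⟨h1, h2⟩⟩
      · exact ⟨0, fun h => absurd h hD⟩
    choose F hF using h1
    have hmaps : ∀ D ∈ T q, F D ∈ E := fun D hD => (hF D hD).1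
    have hinj' : Set.InjOn F (T q) := by
      intro D hD D' hD' h
      apply hinj D D' (F D) (hF D hD).2
      rw [h]
      exact (hF D' hD').2
    exact ⟨Set.Finite.of_injOn hmaps hinj' hEf, Set.ncard_le_ncard_of_injOn F hmaps hinj' hEf⟩
  have hcov : {D : ℤ | D ≠ 0 ∧ |D| ≤ N ∧ ∃ x m c₁ c₂ r κ v : ℤ, Par a b R N Mx x m c₁ c₂ r ∧
        ((X₀ : ℤ) ≤ c₂ ∧ m ≤ (Nat.log 2 c₂.natAbs : ℤ) ^ 2) ∧
        1 ≤ κ ∧ κ ≤ R ∧ 1 ≤ v ∧ v ≤ S0 ∧ D * κ ^ 2 = c₁ * c₂ * m * v ^ 2} ⊆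
      ⋃ q ∈ J, T q := by
    rintro D ⟨hD0, hDN, x, m, c₁, c₂, r, κ, v, hP, ⟨hc2, hm⟩, hκ1, hκR, hv1, hvS, heq⟩
    simp only [Set.mem_iUnion]
    refine ⟨(κ, v), ?_, hD0, c₁ * c₂ * m, ?_, heq⟩
    · rw [hJ, Finset.mem_product, Finset.mem_Icc, Finset.mem_Icc]
      exact ⟨⟨hκ1, hκR⟩, hv1, hvS⟩
    · obtain ⟨hL, hco, hmN, hx, h1, h2, hsz⟩ := hP
      refine ⟨?_, ?_, c₁, c₂, m, r, rfl, hL, hc2, hm⟩
      · exact mul_ne_zero (mul_ne_zero hL.1.ne_zero hL.2.1.ne_zero) hL.2.2.1.ne'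
      · rw [abs_mul, abs_mul, abs_of_pos hL.2.2.2.1, abs_of_pos hL.2.2.1]
        push_cast
        exact hsz
  have hUf : (⋃ q ∈ J, T q).Finite := J.finite_toSet.biUnion fun q hq => (hTc q hq).1
  have h1 : (⋃ q ∈ J, T q).ncard ≤ ∑ q ∈ J, (T q).ncard := by
    have : ∀ K : Finset (ℤ × ℤ), K ⊆ J → (⋃ q ∈ K, T q).ncard ≤ ∑ q ∈ K, (T q).ncard := by
      intro K
      induction K using Finset.induction_on with
      | empty => intro _; simp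
      | insert q K hq ih =>
        intro hK
        rw [Finset.sum_insert hq, Finset.set_biUnion_insert]
        exact (Set.ncard_union_le _ _).trans
          (Nat.add_le_add_left (ih ((Finset.subset_insert _ _).trans hK)) _)
    exact this J subset_rfl
  have h2 := (Set.ncard_le_ncard hcov hUf).trans h1
  have h3 : ∑ q ∈ J, (T q).ncard ≤ R * S0 * E.ncard := by
    calc ∑ q ∈ J, (T q).ncard ≤ ∑ q ∈ J, E.ncard := Finset.sum_le_sum fun q hq => (hTc q hq).2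
      _ = R * S0 * E.ncard := by
          rw [Finset.sum_const, smul_eq_mul, hJ, Finset.card_product, Int.card_Icc, Int.card_Icc]
          have h2 : ((R : ℤ) + 1 - 1).toNat = R := by omega
          have h3 : ((S0 : ℤ) + 1 - 1).toNat = S0 := by omega
          rw [h2, h3]
  have h4 : (Set.ncard {D : ℤ | D ≠ 0 ∧ |D| ≤ N ∧ ∃ x m c₁ c₂ r κ v : ℤ,
      Par a b R N Mx x m c₁ c₂ r ∧
        ((X₀ : ℤ) ≤ c₂ ∧ m ≤ (Nat.log 2 c₂.natAbs : ℤ) ^ 2) ∧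
        1 ≤ κ ∧ κ ≤ R ∧ 1 ≤ v ∧ v ≤ S0 ∧ D * κ ^ 2 = c₁ * c₂ * m * v ^ 2} : ℝ) ≤
      R * S0 * E.ncard := by exact_mod_cast h2.trans h3
  refine h4.trans ?_
  calc (R * S0 * E.ncard : ℝ) ≤ R * S0 * (ε / (R * S0 * R ^ 2) * (R ^ 2 * N : ℕ)) :=
        mul_le_mul_of_nonneg_left hEc (by positivity)
    _ = ε * N := by
        push_cast
        field_simp

/-- small `c₂` and `m`, `b c₂` not a square -/
theorem part4 (hDE : StDE) {a b : ℤ} {R : ℕ} (X1 Mm S0 : ℕ) (ε : ℝ) (hε : 0 < ε) :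
    ∃ N₀ : ℕ, ∀ N Mx : ℕ, N₀ ≤ N →
      (Set.ncard {D : ℤ | D ≠ 0 ∧ |D| ≤ N ∧ ∃ x m c₁ c₂ r κ v : ℤ, Par a b R N Mx x m c₁ c₂ r ∧
        (c₂ ≤ X1 ∧ m ≤ Mm ∧ ¬ IsSquare (b * c₂)) ∧
        1 ≤ κ ∧ κ ≤ R ∧ 1 ≤ v ∧ v ≤ S0 ∧ D * κ ^ 2 = c₁ * c₂ * m * v ^ 2} : ℝ) ≤ ε * N := by
  classical
  set K := R + X1 + Mm + S0 with hK
  have h0 : ∀ c : ℤ, ∃ N₀ : ℕ, ¬ IsSquare (b * c) → ∀ N : ℕ, N₀ ≤ N →
      (Set.ncard {D : ℤ | D ≠ 0 ∧ |D| ≤ N ∧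
      ∀ p : ℕ, p.Prime → (p : ℤ) ∣ D → K < p → IsSquare ((b * c : ℤ) : ZMod p)} : ℝ) ≤
        ε / (X1 + 1) * N := by
    intro c
    by_cases hc : IsSquare (b * c)
    · exact ⟨0, fun h => absurd hc h⟩
    · obtain ⟨N₀, h⟩ := small_sq hDE (b * c) hc K (ε / (X1 + 1)) (by positivity)
      exact ⟨N₀, fun _ => h⟩
  choose N₀ hN₀ using h0
  set J := (Finset.Icc (1 : ℤ) X1).filter fun c => ¬ IsSquare (b * c) with hJ
  refine ⟨∑ c ∈ J, N₀ c, fun N Mx hN => ?_⟩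
  set T : ℤ → Set ℤ := fun c => {D : ℤ | D ≠ 0 ∧ |D| ≤ N ∧
      ∀ p : ℕ, p.Prime → (p : ℤ) ∣ D → K < p → IsSquare ((b * c : ℤ) : ZMod p)} with hT
  have hTf : ∀ c, (T c).Finite := fun c => (Set.finite_Icc (-(N : ℤ)) N).subset
    fun D hD => abs_le.1 hD.2.1
  have hTc : ∀ c ∈ J, ((T c).ncard : ℝ) ≤ ε / (X1 + 1) * N := by
    intro c hc
    apply hN₀ c (Finset.mem_filter.1 hc).2 N
    exact (Finset.single_le_sum (f := N₀) (fun _ _ => Nat.zero_le _) hc).trans hN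
  have hcov : {D : ℤ | D ≠ 0 ∧ |D| ≤ N ∧ ∃ x m c₁ c₂ r κ v : ℤ, Par a b R N Mx x m c₁ c₂ r ∧
        (c₂ ≤ X1 ∧ m ≤ Mm ∧ ¬ IsSquare (b * c₂)) ∧
        1 ≤ κ ∧ κ ≤ R ∧ 1 ≤ v ∧ v ≤ S0 ∧ D * κ ^ 2 = c₁ * c₂ * m * v ^ 2} ⊆
      ⋃ c ∈ J, T c := by
    rintro D ⟨hD0, hDN, x, m, c₁, c₂, r, κ, v, hP, ⟨hc2, hm, hsq⟩, hκ1, hκR, hv1, hvS, heq⟩
    simp only [Set.mem_iUnion]
    obtain ⟨l1, l2, l3⟩ := par_c1 hP
    obtain ⟨hL, hco, hmN, hx, h1, h2, hsz⟩ := hP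
    refine ⟨c₂, Finset.mem_filter.2 ⟨Finset.mem_Icc.2 ⟨l2, hc2⟩, hsq⟩, hD0, hDN, ?_⟩
    intro p hp hpD hKp
    have hpp : Prime (p : ℤ) := Nat.prime_iff_prime_int.1 hp
    have hbig : ∀ t : ℤ, 1 ≤ t → t ≤ K → ¬ (p : ℤ) ∣ t := by
      intro t ht1 ht2 hpt
      have := Int.le_of_dvd (by omega) hpt
      omega
    have h3 : (p : ℤ) ∣ c₁ * c₂ * m * v ^ 2 := by
      rw [← heq]
      exact hpD.mul_right _
    have h4 : (p : ℤ) ∣ c₁ := by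
      rcases hpp.dvd_or_dvd h3 with h | h
      · rcases hpp.dvd_or_dvd h with h | h
        · rcases hpp.dvd_or_dvd h with h | h
          · exact h
          · exact absurd h (hbig c₂ l2 (by push_cast [hK]; omega))
        · exact absurd h (hbig m l3 (by push_cast [hK]; omega))
      · exact absurd (hpp.dvd_of_dvd_pow h) (hbig v hv1 (by push_cast [hK]; omega))
    apply hL.2.2.2.2.2.2.2.2.1 p hp h4
    intro hpR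
    by_cases hR0 : R = 0
    · omega
    · have := Nat.le_of_dvd (by omega) hpR
      omega
  have hUf : (⋃ c ∈ J, T c).Finite := J.finite_toSet.biUnion fun c _ => hTf c
  have h1 : (⋃ c ∈ J, T c).ncard ≤ ∑ c ∈ J, (T c).ncard := by
    have : ∀ K : Finset ℤ, (⋃ q ∈ K, T q).ncard ≤ ∑ q ∈ K, (T q).ncard := by
      intro K
      induction K using Finset.induction_on with
      | empty => simp
      | insert q K hq ih =>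
        rw [Finset.sum_insert hq, Finset.set_biUnion_insert]
        exact (Set.ncard_union_le _ _).trans (Nat.add_le_add_left ih _)
    exact this J
  have h2 : (Set.ncard {D : ℤ | D ≠ 0 ∧ |D| ≤ N ∧ ∃ x m c₁ c₂ r κ v : ℤ,
      Par a b R N Mx x m c₁ c₂ r ∧ (c₂ ≤ X1 ∧ m ≤ Mm ∧ ¬ IsSquare (b * c₂)) ∧
        1 ≤ κ ∧ κ ≤ R ∧ 1 ≤ v ∧ v ≤ S0 ∧ D * κ ^ 2 = c₁ * c₂ * m * v ^ 2} : ℝ) ≤
      ∑ c ∈ J, ((T c).ncard : ℝ) := by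
    exact_mod_cast (Set.ncard_le_ncard hcov hUf).trans h1
  have hJc : (J.card : ℝ) ≤ X1 := by
    have h3 : J.card ≤ (Finset.Icc (1 : ℤ) X1).card := Finset.card_filter_le _ _
    rw [Int.card_Icc] at h3
    have h4 : ((X1 : ℤ) + 1 - 1).toNat = X1 := by omega
    rw [h4] at h3
    exact_mod_cast h3
  refine h2.trans ((Finset.sum_le_sum hTc).trans ?_)
  rw [Finset.sum_const, nsmul_eq_mul]
  calc (J.card : ℝ) * (ε / (X1 + 1) * N) ≤ X1 * (ε / (X1 + 1) * N) :=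
        mul_le_mul_of_nonneg_right hJc (by positivity)
    _ = (X1 / (X1 + 1)) * (ε * N) := by ring
    _ ≤ 1 * (ε * N) := by
        apply mul_le_mul_of_nonneg_right _ (by positivity)
        rw [div_le_one (by positivity)]
        linarith
    _ = _ := one_mul _

end Pool.Agent.K7.H23.PT
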